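import Pool.Agent.Lib.MP_9f2731_nt.CG.Tw.SpecX

/-!
MP_9f2731_nt, CG/Tw/DnX: density and choice of J (adapted from QL/Aw/DnV).
-/

namespace Pool.Agent.Lib.MP_9f2731_nt.CG.Tw

open Finset
open Pool.Agent.Lib.MP_9f2731_nt.GP
open Pool.Agent.Lib.MP_9f2731_nt.GP.Rel
open Pool.Agent.Lib.MP_9f2731_nt.GP.Asm (eb)
open Pool.Agent.Lib.MP_9f2731_nt.QL
open Pool.Agent.Lib.MP_9f2731_nt.QL.Aw

/-- the height of one factor of fK -/
private noncomputable def DnX_h (V : ℕ) (κ : ℝ) (X : ℕ) : ℝ :=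
  (V.totient / V : ℝ) * Real.log ((X : ℝ) ^ κ) * (3 / 4)

private theorem DnX_nonneg {ℋ : Finset ℕ} {V : ℕ} {κ κ1 : ℝ} {J : Finset ℕ} {T M : ℕ} {q : Fin T → ℕ} {K' X b : ℕ}
    {x : Fin T → ZMod M} (hV : 0 ≤ DnX_h V κ X) : 0 ≤ fK ℋ V κ κ1 J q K' X b x := by
  unfold fK
  split_ifs
  · exact pow_nonneg hV _
  · exact le_rfl

/-- for a good b some J gives the full height -/
private theorem DnX_sumJ {𝒢 ℋ : Finset ℕ} {m V : ℕ} {κ κ1 : ℝ} {T M : ℕ} {q : Fin T → ℕ} {K' X b : ℕ}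
    {x : Fin T → ZMod M} (hV : 0 ≤ DnX_h V κ X) (hx : ∀ j, (x j).val + K' < M)
    (hg : GdX 𝒢 ℋ m ((X : ℝ) ^ κ1) V (mltv q x) b) :
    (DnX_h V κ X) ^ ℋ.card ≤ ∑ J ∈ powersetCard (m + 1) 𝒢, fK ℋ V κ κ1 J q K' X b x := by
  obtain ⟨hr, hc⟩ := hg
  obtain ⟨J, hJ1, hJ2⟩ := Finset.exists_subset_card_eq hc
  have hJ3 : J ∈ powersetCard (m + 1) 𝒢 :=
    Finset.mem_powersetCard.mpr ⟨hJ1.trans (Finset.filter_subset _ _), hJ2⟩
  have hJ4 : fK ℋ V κ κ1 J q K' X b x = (DnX_h V κ X) ^ ℋ.card := by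
    unfold fK
    rw [if_pos ⟨hx, hr, fun l hl => (Finset.mem_filter.mp (hJ1 hl)).2⟩]
    rfl
  rw [← hJ4]
  exact Finset.single_le_sum (f := fun J => fK ℋ V κ κ1 J q K' X b x)
    (fun J _ => DnX_nonneg hV) hJ3

/-- the number of points with distance K from the boundary -/
private theorem DnX_box {T M K : ℕ} [NeZero M] :
    (M - K) ^ T ≤ (univ.filter (fun x : Fin T → ZMod M => ∀ j, (x j).val + K < M)).card := by
  have h1 : M - K ≤ (univ.filter (fun y : ZMod M => y.val + K < M)).card := by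
    have h2 : (range (M - K)).card ≤ (univ.filter (fun y : ZMod M => y.val + K < M)).card := by
      refine Finset.card_le_card_of_injOn (fun i : ℕ => (i : ZMod M)) ?_ ?_
      · intro i hi
        have hi' : i < M - K := Finset.mem_range.mp (Finset.mem_coe.mp hi)
        simp only [Finset.coe_filter, Finset.mem_univ, true_and, Set.mem_ofPred_eq]
        rw [ZMod.val_natCast_of_lt (by omega)]
        omega
      · intro i hi j hj hij
        have hi' : i < M - K := Finset.mem_range.mp (Finset.mem_coe.mp hi)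
        have hj' : j < M - K := Finset.mem_range.mp (Finset.mem_coe.mp hj)
        have h3 := congrArg ZMod.val hij
        simp only at h3
        rwa [ZMod.val_natCast_of_lt (by omega), ZMod.val_natCast_of_lt (by omega)] at h3
    rwa [Finset.card_range] at h2
  have h2 : (univ.filter (fun x : Fin T → ZMod M => ∀ j, (x j).val + K < M)) =
      Fintype.piFinset (fun _ : Fin T => univ.filter (fun y : ZMod M => y.val + K < M)) := by
    ext x
    simp only [Finset.mem_filter, Finset.mem_univ, true_and, Fintype.mem_piFinset]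
  rw [h2, Fintype.card_piFinset, Finset.prod_const, Finset.card_univ, Fintype.card_fin]
  exact Nat.pow_le_pow_left h1 _

/-- at least half of the points have distance E T from the boundary -/
private theorem DnX_half {T M E : ℕ} [NeZero M] (hM : 2 * E * T ^ 2 < M) :
    (M : ℝ) ^ T / 2 ≤
      ((univ.filter (fun x : Fin T → ZMod M => ∀ j, (x j).val + E * T < M)).card : ℝ) := by
  have hK : E * T ≤ M := by
    rcases Nat.eq_zero_or_pos T with h | h
    · rw [h, mul_zero]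
      exact Nat.zero_le _
    · have : E * T ≤ E * T ^ 2 := Nat.mul_le_mul_left E (Nat.le_self_pow two_ne_zero T)
      have h2 : 2 * E * T ^ 2 = 2 * (E * T ^ 2) := by ring
      omega
  have h1 := DnX_box (T := T) (M := M) (K := E * T)
  have h2 : ((M - E * T : ℕ) : ℝ) ^ T ≤
      ((univ.filter (fun x : Fin T → ZMod M => ∀ j, (x j).val + E * T < M)).card : ℝ) := by
    exact_mod_cast h1
  refine le_trans ?_ h2
  have hM0 : (0 : ℝ) < M := by
    have := NeZero.pos M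
    exact_mod_cast this
  rw [Nat.cast_sub hK]
  have h3 : ((M : ℝ) - ((E * T : ℕ) : ℝ)) = M * (1 + -(((E * T : ℕ) : ℝ) / M)) := by
    field_simp
    ring
  have hK' : ((E * T : ℕ) : ℝ) / M ≤ 1 := (div_le_one hM0).2 (by exact_mod_cast hK)
  have h4 := one_add_mul_le_pow (a := -(((E * T : ℕ) : ℝ) / M)) (by linarith) T
  have h5 : (T : ℝ) * (((E * T : ℕ) : ℝ) / M) ≤ 1 / 2 := by
    rw [← mul_div_assoc, div_le_iff₀ hM0]
    have h6 : (2 : ℝ) * E * T ^ 2 ≤ M := by exact_mod_cast hM.le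
    push_cast
    nlinarith
  rw [h3, mul_pow]
  have h7 : (1 : ℝ) / 2 ≤ (1 + -(((E * T : ℕ) : ℝ) / M)) ^ T := by
    refine le_trans ?_ h4
    linarith
  have h8 := mul_le_mul_of_nonneg_left h7 (pow_nonneg hM0.le T)
  linarith

open Classical in
theorem pDnX (hG : GroStmt) : DnXStmt := by
  intro m 𝒢 ℋ κ κ1 c1 hκ hκ1 hc1
  refine ⟨c1 * (3 * κ / 4) ^ ℋ.card / 2 ^ (𝒢.card + 2), by positivity, ?_⟩
  intro A E w1 hA hE
  obtain ⟨Xg, hXg⟩ := hG A E w1 0 1 1 (-1 / 2) hA hE one_pos one_pos (by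
    have : (1 : ℝ) ≤ A := by exact_mod_cast hA
    linarith)
  have ev3 : ∀ᶠ x : ℝ in Filter.atTop, 1 ≤ Real.log x :=
    Real.tendsto_log_atTop.eventually_ge_atTop 1
  obtain ⟨X0, hX0⟩ := Filter.eventually_atTop.mp (ev3.and
    (Filter.eventually_ge_atTop (max Xg 1)))
  refine ⟨X0, fun X hX T M w p0 V _ q hS hall => ?_⟩
  obtain ⟨e3, e4⟩ := hX0 (X : ℝ) hX
  obtain ⟨-, -, -, -, -, hV1, -⟩ := hXg X ((le_max_left _ _).trans e4) T M w p0 V q hS
  have hM1 := hS.hM1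
  have hX1 : (1 : ℝ) ≤ (X : ℝ) := (le_max_right _ _).trans e4
  have hXpos : (0 : ℝ) < (X : ℝ) := by linarith
  have hLpos : (0 : ℝ) < Real.log X := by linarith
  have hMpos : (0 : ℝ) < (M : ℝ) := by
    have := NeZero.pos M
    exact_mod_cast this
  have hVpos' : (0 : ℝ) < (V : ℝ) := by exact_mod_cast hV1
  have hφpos : (0 : ℝ) < (V.totient : ℝ) := by exact_mod_cast Nat.totient_pos.mpr hV1
  have hlogk : Real.log ((X : ℝ) ^ κ) = κ * Real.log X := Real.log_rpow hXpos κ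
  have hV : 0 ≤ DnX_h V κ X := by
    unfold DnX_h
    rw [hlogk]
    positivity
  set c0 : ℝ := c1 * (3 * κ / 4) ^ ℋ.card with hc0
  have hc0pos : 0 < c0 := by positivity
  have hprod : (DnX_h V κ X) ^ ℋ.card * (c1 * (((V : ℝ) / V.totient) / Real.log X) ^ ℋ.card * X) =
      c0 * X := by
    have h1 : DnX_h V κ X * (((V : ℝ) / V.totient) / Real.log X) = 3 * κ / 4 := by
      unfold DnX_h
      rw [hlogk]
      field_simp
    calc (DnX_h V κ X) ^ ℋ.card * (c1 * (((V : ℝ) / V.totient) / Real.log X) ^ ℋ.card * X)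
        = c1 * (DnX_h V κ X * (((V : ℝ) / V.totient) / Real.log X)) ^ ℋ.card * X := by
          rw [mul_pow]
          ring
      _ = c0 * X := by rw [h1]
  -- one point
  have hone : ∀ x : Fin T → ZMod M, (∀ j, (x j).val + E * T < M) →
      c0 * X ≤ ∑ b ∈ Icc 1 X, ∑ J ∈ powersetCard (m + 1) 𝒢,
        fK ℋ V κ κ1 J q (E * T) X b x := by
    intro x hx
    set Q := (Icc 1 X).filter (fun b => GdX 𝒢 ℋ m ((X : ℝ) ^ κ1) V (mltv q x) b) with hQ
    calc c0 * X = (DnX_h V κ X) ^ ℋ.card *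
          (c1 * (((V : ℝ) / V.totient) / Real.log X) ^ ℋ.card * X) := hprod.symm
      _ ≤ (DnX_h V κ X) ^ ℋ.card * (Q.card : ℝ) :=
          mul_le_mul_of_nonneg_left (hall x) (pow_nonneg hV _)
      _ = ∑ b ∈ Q, (DnX_h V κ X) ^ ℋ.card := by
          rw [Finset.sum_const, nsmul_eq_mul, mul_comm]
      _ ≤ ∑ b ∈ Q, ∑ J ∈ powersetCard (m + 1) 𝒢, fK ℋ V κ κ1 J q (E * T) X b x :=
          Finset.sum_le_sum fun b hb => DnX_sumJ hV hx (Finset.mem_filter.mp hb).2
      _ ≤ ∑ b ∈ Icc 1 X, ∑ J ∈ powersetCard (m + 1) 𝒢,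
            fK ℋ V κ κ1 J q (E * T) X b x := by
          refine Finset.sum_le_sum_of_subset_of_nonneg ?_
            (fun b _ _ => Finset.sum_nonneg fun J _ => DnX_nonneg hV)
          exact Finset.filter_subset _ _
  have hbox' := DnX_half (T := T) (M := M) (E := E) hM1
  have hcardG : (Fintype.card (Fin T → ZMod M) : ℝ) = (M : ℝ) ^ T := by
    rw [Fintype.card_fun, Fintype.card_fin, ZMod.card]
    push_cast
    rfl
  have hsum : (M : ℝ) ^ T / 2 * (c0 * X) ≤
      ∑ x : Fin T → ZMod M, ∑ b ∈ Icc 1 X, ∑ J ∈ powersetCard (m + 1) 𝒢,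
        fK ℋ V κ κ1 J q (E * T) X b x := by
    calc (M : ℝ) ^ T / 2 * (c0 * X) ≤
          ((univ.filter (fun x : Fin T → ZMod M => ∀ j, (x j).val + E * T < M)).card : ℝ) *
            (c0 * X) := mul_le_mul_of_nonneg_right hbox' (by positivity)
      _ = ∑ _x ∈ univ.filter (fun x : Fin T → ZMod M => ∀ j, (x j).val + E * T < M), c0 * X := by
          rw [Finset.sum_const, nsmul_eq_mul]
      _ ≤ ∑ x ∈ univ.filter (fun x : Fin T → ZMod M => ∀ j, (x j).val + E * T < M),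
          ∑ b ∈ Icc 1 X, ∑ J ∈ powersetCard (m + 1) 𝒢, fK ℋ V κ κ1 J q (E * T) X b x :=
          Finset.sum_le_sum fun x hx => hone x (Finset.mem_filter.mp hx).2
      _ ≤ ∑ x : Fin T → ZMod M, ∑ b ∈ Icc 1 X, ∑ J ∈ powersetCard (m + 1) 𝒢,
            fK ℋ V κ κ1 J q (E * T) X b x :=
          Finset.sum_le_sum_of_subset_of_nonneg (Finset.filter_subset _ _)
            (fun x _ _ => Finset.sum_nonneg fun b _ => Finset.sum_nonneg fun J _ => DnX_nonneg hV)
  have hfin : ∀ J : Finset ℕ, eb X (fun b => av (fun x : Fin T → ZMod M =>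
      fK ℋ V κ κ1 J q (E * T) X b x)) =
      (∑ x : Fin T → ZMod M, ∑ b ∈ Icc 1 X, fK ℋ V κ κ1 J q (E * T) X b x) /
        ((M : ℝ) ^ T) / X := by
    intro J
    unfold eb av
    rw [← Finset.sum_div, Finset.sum_comm, hcardG]
  have hswap : ∑ x : Fin T → ZMod M, ∑ b ∈ Icc 1 X, ∑ J ∈ powersetCard (m + 1) 𝒢,
      fK ℋ V κ κ1 J q (E * T) X b x = ∑ J ∈ powersetCard (m + 1) 𝒢,
      ∑ x : Fin T → ZMod M, ∑ b ∈ Icc 1 X, fK ℋ V κ κ1 J q (E * T) X b x := by
    rw [Finset.sum_comm]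
    rw [Finset.sum_congr rfl (fun b _ => Finset.sum_comm)]
    rw [Finset.sum_comm]
    exact Finset.sum_congr rfl fun J _ => Finset.sum_comm
  have htot : c0 / 2 ≤ ∑ J ∈ powersetCard (m + 1) 𝒢,
      eb X (fun b => av (fun x : Fin T → ZMod M => fK ℋ V κ κ1 J q (E * T) X b x)) := by
    rw [Finset.sum_congr rfl (fun J _ => hfin J), ← Finset.sum_div, ← Finset.sum_div, ← hswap,
      le_div_iff₀ hXpos, le_div_iff₀ (by positivity)]
    refine le_trans (le_of_eq ?_) hsum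
    ring
  by_contra hcon
  have hlt : ∀ J ∈ powersetCard (m + 1) 𝒢,
      eb X (fun b => av (fun x : Fin T → ZMod M => fK ℋ V κ κ1 J q (E * T) X b x)) <
        2 * (c0 / 2 ^ (𝒢.card + 2)) := by
    intro J hJ
    rw [Finset.mem_powersetCard] at hJ
    by_contra hJ2
    exact hcon ⟨J, hJ.1, hJ.2, not_lt.mp hJ2⟩
  have hne : (powersetCard (m + 1) 𝒢).Nonempty := by
    rw [Finset.nonempty_iff_ne_empty]
    intro h0
    rw [h0, Finset.sum_empty] at htot
    linarith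
  have h1 := Finset.sum_lt_sum_of_nonempty hne hlt
  rw [Finset.sum_const, nsmul_eq_mul, Finset.card_powersetCard] at h1
  have h2 : ((𝒢.card.choose (m + 1) : ℕ) : ℝ) ≤ 2 ^ 𝒢.card := by
    have h3 : 𝒢.card.choose (m + 1) ≤ 2 ^ 𝒢.card := by
      rcases Nat.lt_or_ge 𝒢.card (m + 1) with h | h
      · rw [Nat.choose_eq_zero_of_lt h]
        exact Nat.zero_le _
      · rw [← Nat.sum_range_choose 𝒢.card]
        exact Finset.single_le_sum (f := fun i => 𝒢.card.choose i) (fun i _ => Nat.zero_le _)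
          (Finset.mem_range.mpr (by omega))
    exact_mod_cast h3
  have h4 : ((𝒢.card.choose (m + 1) : ℕ) : ℝ) * (2 * (c0 / 2 ^ (𝒢.card + 2))) ≤ c0 / 2 := by
    calc ((𝒢.card.choose (m + 1) : ℕ) : ℝ) * (2 * (c0 / 2 ^ (𝒢.card + 2))) ≤
          2 ^ 𝒢.card * (2 * (c0 / 2 ^ (𝒢.card + 2))) := mul_le_mul_of_nonneg_right h2 (by positivity)
      _ = c0 / 2 := by
          rw [pow_add]
          field_simp
  linarith

end Pool.Agent.Lib.MP_9f2731_nt.CG.Tw
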