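import Pool.Agent.Lib.MP_9f2731_nt.CG.Tw.SpecX

/-!
MP_9f2731_nt, CG/Tw/FiX: THEOREM CG from GridXStmt (helper84).
-/

namespace Pool.Agent.Lib.MP_9f2731_nt.CG.Tw

open Finset
open Pool.Agent.Lib.MP_9f2731_nt.GP
open Pool.Agent.Lib.MP_9f2731_nt.GP.Rel
open Pool.Agent.Lib.MP_9f2731_nt.GP.Asm (eb)
open Pool.Agent.Lib.MP_9f2731_nt.QL

private theorem FiX_L (C : ℝ) : ∃ N : ℕ, ∀ X : ℕ, N ≤ X → C ≤ Real.log (Real.log X) := by
  have h : Filter.Tendsto (fun X : ℕ => Real.log (Real.log X)) Filter.atTop Filter.atTop :=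
    Real.tendsto_log_atTop.comp (Real.tendsto_log_atTop.comp tendsto_natCast_atTop_atTop)
  exact Filter.eventually_atTop.1 (h.eventually_ge_atTop C)

private theorem FiX_log (C : ℝ) : ∃ N : ℕ, ∀ X : ℕ, N ≤ X → C ≤ Real.log X := by
  have h : Filter.Tendsto (fun X : ℕ => Real.log (X : ℝ)) Filter.atTop Filter.atTop :=
    Real.tendsto_log_atTop.comp tendsto_natCast_atTop_atTop
  exact Filter.eventually_atTop.1 (h.eventually_ge_atTop C)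

private theorem FiX_big (A k : ℝ) : ∃ N : ℕ, ∀ X : ℕ, N ≤ X →
    A + k * ((Real.log (Real.log X)) ^ 3 / 8) + (Real.log (Real.log X)) ^ 6 / 2 ≤ Real.log X := by
  have h1 : Filter.Tendsto (fun x : ℝ => Real.exp x / x ^ 6) Filter.atTop Filter.atTop :=
    Real.tendsto_exp_div_pow_atTop 6
  obtain ⟨x0, hx0⟩ := Filter.eventually_atTop.1 (h1.eventually_ge_atTop (|A| + |k| + 1))
  obtain ⟨N1, hN1⟩ := FiX_L (max x0 1)
  obtain ⟨N2, hN2⟩ := FiX_log 1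
  refine ⟨max N1 N2, fun X hX => ?_⟩
  have hL := hN1 X ((le_max_left _ _).trans hX)
  have hl := hN2 X ((le_max_right _ _).trans hX)
  obtain ⟨x, hx⟩ : ∃ x, x = Real.log (Real.log (X : ℝ)) := ⟨_, rfl⟩
  have hexp : Real.exp x = Real.log X := by
    rw [hx]
    exact Real.exp_log (by linarith)
  rw [← hx] at hL ⊢
  have hx1 : 1 ≤ x := (le_max_right _ _).trans hL
  have h2 := hx0 x ((le_max_left _ _).trans hL)
  have h16 : 1 ≤ x ^ 6 := one_le_pow₀ hx1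
  have hx6 : 0 < x ^ 6 := by linarith
  rw [le_div_iff₀ hx6, hexp] at h2
  have hx3 : x ^ 3 ≤ x ^ 6 := pow_le_pow_right₀ hx1 (by norm_num)
  have h03 : 0 ≤ x ^ 3 := by positivity
  have e1 : A ≤ |A| * x ^ 6 :=
    (le_abs_self A).trans (le_mul_of_one_le_right (abs_nonneg A) h16)
  have e2 : k * (x ^ 3 / 8) ≤ |k| * x ^ 6 := by
    calc k * (x ^ 3 / 8) ≤ |k| * (x ^ 3 / 8) :=
          mul_le_mul_of_nonneg_right (le_abs_self k) (by positivity)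
      _ ≤ |k| * x ^ 6 := mul_le_mul_of_nonneg_left (by linarith) (abs_nonneg k)
  have e3 : (|A| + |k| + 1) * x ^ 6 = |A| * x ^ 6 + |k| * x ^ 6 + x ^ 6 := by ring
  linarith

open Classical in
/-- the set in GridXStmt -/
private noncomputable def FiX_G (κ : ℝ) (k : ℕ) (J ℋ : Finset ℕ) (X : ℕ) : Finset ℕ :=
  (Icc 1 X).filter (fun b => ∃ s r : ℕ, 1 ≤ s ∧
    Real.log s ≤ (Real.log (Real.log X)) ^ 6 / 2 ∧ 2 ≤ r ∧
    Real.log r ≤ (Real.log (Real.log X)) ^ 3 / 8 ∧ Grd J ℋ ((X : ℝ) ^ κ) k r (b * s))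

private theorem FiX_mem {κ : ℝ} {k : ℕ} {J ℋ : Finset ℕ} {X b : ℕ} (h : b ∈ FiX_G κ k J ℋ X) :
    (1 ≤ b ∧ b ≤ X) ∧ ∃ s r : ℕ, 1 ≤ s ∧
      Real.log s ≤ (Real.log (Real.log X)) ^ 6 / 2 ∧ 2 ≤ r ∧
      Real.log r ≤ (Real.log (Real.log X)) ^ 3 / 8 ∧ Grd J ℋ ((X : ℝ) ^ κ) k r (b * s) := by
  classical
  unfold FiX_G at h
  rw [mem_filter, mem_Icc] at h
  exact h

private theorem FiX_exp {s : ℕ} {B : ℝ} (hs : 1 ≤ s) (h : Real.log s ≤ B) : (s : ℝ) ≤ Real.exp B := by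
  have h1 : (0 : ℝ) < s := by exact_mod_cast hs
  rw [← Real.exp_log h1]
  exact Real.exp_le_exp.2 h

/-- counting -/
private theorem FiX_card {F : Finset ℕ} {S : Set ℕ} {X : ℕ} (h : ∀ b ∈ F, b ∈ S)
    (hS : ∀ a ∈ S, 1 ≤ a ∧ a ≤ X) : (F.card : ℝ) ≤ ((S.ncard : ℕ) : ℝ) := by
  have h1 : (F : Set ℕ).ncard ≤ S.ncard :=
    Set.ncard_le_ncard (fun b hb => h b (mem_coe.1 hb))
      ((Set.finite_Icc 1 X).subset fun a ha => hS a ha)
  rw [Set.ncard_coe_finset] at h1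
  exact_mod_cast h1

private theorem FiX_size {L k X g i r b s : ℕ}
    (hbig : Real.log (2 * ((L : ℝ) + 1)) + k * ((Real.log (Real.log X)) ^ 3 / 8) +
      (Real.log (Real.log X)) ^ 6 / 2 ≤ Real.log X) (hX : 1 ≤ X) (hg1 : 1 ≤ g) (hg : g ≤ L)
    (hi : i ≤ k) (hr : 1 ≤ r) (hlr : Real.log r ≤ (Real.log (Real.log X)) ^ 3 / 8) (hs : 1 ≤ s)
    (hls : Real.log s ≤ (Real.log (Real.log X)) ^ 6 / 2) (hb1 : 1 ≤ b) (hbX : b ≤ X) :
    g * r ^ i * (b * s) + 1 ≤ X ^ 2 := by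
  have hX0 : (0 : ℝ) < X := by exact_mod_cast hX
  have hr0 : (0 : ℝ) < r := by exact_mod_cast hr
  have hs0 : (0 : ℝ) < s := by exact_mod_cast hs
  have hL0 : (0 : ℝ) < 2 * ((L : ℝ) + 1) := by positivity
  have h1 : Real.log (2 * ((L : ℝ) + 1) * (r : ℝ) ^ k * s) ≤ Real.log X := by
    rw [Real.log_mul (by positivity) hs0.ne', Real.log_mul hL0.ne' (by positivity), Real.log_pow]
    have h2 : (k : ℝ) * Real.log r ≤ k * ((Real.log (Real.log X)) ^ 3 / 8) :=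
      mul_le_mul_of_nonneg_left hlr (Nat.cast_nonneg k)
    linarith
  have h2 : 2 * ((L : ℝ) + 1) * (r : ℝ) ^ k * s ≤ X :=
    (Real.log_le_log_iff (by positivity) hX0).1 h1
  have hN : 2 * (L + 1) * r ^ k * s ≤ X := by exact_mod_cast h2
  have h3 : 1 ≤ g * r ^ i * (b * s) :=
    Nat.mul_pos (Nat.mul_pos hg1 (Nat.pow_pos hr)) (Nat.mul_pos hb1 hs)
  have h4 : g * r ^ i * (b * s) ≤ (L + 1) * r ^ k * (X * s) :=
    Nat.mul_le_mul (Nat.mul_le_mul (by omega) (Nat.pow_le_pow_right hr hi))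
      (Nat.mul_le_mul_right s hbX)
  calc g * r ^ i * (b * s) + 1 ≤ 2 * ((L + 1) * r ^ k * (X * s)) := by omega
    _ = (2 * (L + 1) * r ^ k * s) * X := by ring
    _ ≤ X * X := Nat.mul_le_mul_right X hN
    _ = X ^ 2 := by ring

private theorem FiX_P (hR : RgpStmt) (𝒢1 : Finset ℕ) (L' k' : ℕ) (κ : ℝ) (hκ : 0 < κ) :
    ∃ N : ℕ, ∀ X : ℕ, N ≤ X → ∀ (J : Finset ℕ) (b : ℕ), b ∈ FiX_G κ k' J (𝒢1 ∪ Icc 1 L') X →
      ∀ L k : ℕ, L ≤ L' → k ≤ k' → 1 ≤ b ∧ b ≤ X ∧ ∃ s r : ℕ, 1 ≤ s ∧ 2 ≤ r ∧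
        (s : ℝ) ≤ Real.exp ((Real.log (Real.log X)) ^ 6) ∧
        (r : ℝ) ≤ Real.exp ((Real.log (Real.log X)) ^ 3) ∧
        Real.log r ≤ (Real.log (Real.log X)) ^ 3 / 8 ∧ PrG J k r (b * s) ∧
          Apx L ⌈2 / κ⌉₊ k r (b * s) := by
  obtain ⟨N1, hN1⟩ := FiX_big (Real.log (2 * ((L' : ℝ) + 1))) k'
  obtain ⟨N2, hN2⟩ := FiX_L 0
  refine ⟨max (max N1 N2) 2, fun X hX J b hb L k hL hk => ?_⟩
  have hX2 : 2 ≤ X := (le_max_right _ _).trans hX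
  have hbig := hN1 X ((le_max_left _ _).trans ((le_max_left _ _).trans hX))
  have hL2 := hN2 X ((le_max_right _ _).trans ((le_max_left _ _).trans hX))
  obtain ⟨⟨hb1, hbX⟩, s, r, hs, hls, hr, hlr, hgr⟩ := FiX_mem hb
  refine ⟨hb1, hbX, s, r, hs, hr, FiX_exp hs ?_, FiX_exp (by omega) ?_, hlr, ?_, ?_⟩
  · have : 0 ≤ (Real.log (Real.log X)) ^ 6 := by positivity
    linarith
  · have : 0 ≤ (Real.log (Real.log X)) ^ 3 := by positivity
    linarith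
  · intro i hi g hg
    exact (hgr i (lt_of_lt_of_le hi hk)).1 g hg
  · intro i hi g hg1 hgL
    have hgH : g ∈ 𝒢1 ∪ Icc 1 L' :=
      mem_union_right _ (mem_Icc.2 ⟨hg1, hgL.trans hL⟩)
    have h1 := (hgr i (lt_of_lt_of_le hi hk)).2 g hgH
    have h2 : g * r ^ i * (b * s) + 1 ≤ X ^ 2 :=
      FiX_size hbig (by omega) hg1 (hgL.trans hL) (by omega) (by omega) hlr hs hls hb1 hbX
    exact hR κ X _ hκ hX2 (by omega) h2 h1

private theorem FiX_pig (𝒥 : Finset (Finset ℕ)) (P : Finset ℕ → ℕ → Prop) (X0 : ℝ)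
    (h : ∀ X : ℕ, X0 ≤ X → ∃ J ∈ 𝒥, P J X) : ∃ J ∈ 𝒥, ∀ N : ℕ, ∃ X : ℕ, N ≤ X ∧ P J X := by
  by_contra hcon
  have h3 : ∀ J : Finset ℕ, ∃ N : ℕ, J ∈ 𝒥 → ∀ X : ℕ, N ≤ X → ¬ P J X := by
    intro J
    by_cases hJ : J ∈ 𝒥
    · by_contra hno
      refine hcon ⟨J, hJ, fun N => ?_⟩
      by_contra hno'
      exact hno ⟨N, fun _ X hX h => hno' ⟨X, hX, h⟩⟩
    · exact ⟨0, fun h => absurd h hJ⟩
  choose N hN using h3
  obtain ⟨X, hX⟩ : ∃ X, X = max (𝒥.sup N) ⌈X0⌉₊ := ⟨_, rfl⟩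
  have hX0 : X0 ≤ X := by
    refine (Nat.le_ceil X0).trans ?_
    rw [hX]
    exact_mod_cast le_max_right _ _
  obtain ⟨J, hJ, hJ3⟩ := h X hX0
  refine hN J hJ X ?_ hJ3
  rw [hX]
  exact (Finset.le_sup (f := N) hJ).trans (le_max_left _ _)

/-- a large element -/
private theorem FiX_max {F : Finset ℕ} {y : ℝ} (hy : 0 < y) (h : y ≤ (F.card : ℝ))
    (h1 : ∀ b ∈ F, 1 ≤ b) : ∃ b ∈ F, y ≤ (b : ℝ) := by
  have hpos : 0 < F.card := by
    have : (0 : ℝ) < F.card := hy.trans_le h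
    exact_mod_cast this
  have hne : F.Nonempty := card_pos.1 hpos
  refine ⟨F.max' hne, F.max'_mem hne, h.trans ?_⟩
  have h2 : F ⊆ Icc 1 (F.max' hne) := fun b hb => mem_Icc.2 ⟨h1 b hb, F.le_max' b hb⟩
  have h3 := card_le_card h2
  rw [Nat.card_Icc, Nat.add_sub_cancel] at h3
  exact_mod_cast h3

theorem pFiX (hG : GridXStmt) (hP : Ps1Stmt) (hR : RgpStmt) : FiXStmt := by
  intro m
  obtain ⟨K, hGK⟩ := hG m
  refine ⟨K, fun 𝒢 h𝒢 h𝒢1 => ?_⟩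
  obtain ⟨𝒢1, hsub, hcard⟩ := Finset.exists_subset_card_eq h𝒢
  have hone : ∀ L : ℕ, ∀ g ∈ 𝒢1 ∪ Icc 1 L, 1 ≤ g := by
    intro L g hg
    rcases mem_union.1 hg with hg | hg
    · exact h𝒢1 g (hsub hg)
    · exact (mem_Icc.1 hg).1
  have hκ0 : ∀ L : ℕ, ∃ κ : ℝ, 0 < κ ∧ ∀ k : ℕ, 3 ≤ k → ∃ c X0 : ℝ, 0 < c ∧ ∀ X : ℕ, X0 ≤ X →
      ∃ J : Finset ℕ, J ⊆ 𝒢1 ∧ J.card = m + 1 ∧
        c * X ≤ ((FiX_G κ k J (𝒢1 ∪ Icc 1 L) X).card : ℝ) := fun L =>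
    hGK 𝒢1 (𝒢1 ∪ Icc 1 L) hcard subset_union_left (hone L)
  choose κ hκ hk1 using hκ0
  have hk2 : ∀ L k : ℕ, ∃ c X0 : ℝ, 0 < c ∧ (3 ≤ k → ∀ X : ℕ, X0 ≤ X →
      ∃ J : Finset ℕ, J ⊆ 𝒢1 ∧ J.card = m + 1 ∧
        c * X ≤ ((FiX_G (κ L) k J (𝒢1 ∪ Icc 1 L) X).card : ℝ)) := by
    intro L k
    by_cases hk : 3 ≤ k
    · obtain ⟨c, X0, hc, h⟩ := hk1 L k hk
      exact ⟨c, X0, hc, fun _ => h⟩
    · exact ⟨1, 0, one_pos, fun h => absurd h hk⟩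
  choose c X0 hc hcX using hk2
  refine ⟨fun L => ⟨⌈2 / κ L⌉₊, fun k => ?_⟩, ?_⟩
  · -- (1)
    obtain ⟨N, hN⟩ := FiX_P hR 𝒢1 L (max k 3) (κ L) (hκ L)
    refine ⟨c L (max k 3), max (X0 L (max k 3)) N, hc _ _, fun X hX => ?_⟩
    have hNX : N ≤ X := by
      have := (le_max_right (X0 L (max k 3)) (N : ℝ)).trans hX
      exact_mod_cast this
    obtain ⟨J, hJ1, hJ2, hJ3⟩ := hcX L (max k 3) (le_max_right _ _) X ((le_max_left _ _).trans hX)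
    refine ⟨J, hJ1.trans hsub, hJ2, hJ3.trans (FiX_card (X := X) (fun b hb => ?_)
      fun a ha => ⟨ha.1, ha.2.1⟩)⟩
    obtain ⟨hb1, hbX, s, r, hs, hr, hse, hre, -, hpr, hap⟩ :=
      hN X hNX J b hb L k le_rfl (le_max_left _ _)
    exact ⟨hb1, hbX, s, r, hs, hr, hse, hre, hpr, hap⟩
  · -- (2), (3)
    obtain ⟨J, hJ, hJQ⟩ := hP (powersetCard (m + 1) 𝒢1)
      (fun L k J => ∀ N : ℕ, ∃ X : ℕ, N ≤ X ∧
        c L k * X ≤ ((FiX_G (κ L) k J (𝒢1 ∪ Icc 1 L) X).card : ℝ)) (by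
        intro L k hk
        refine FiX_pig (powersetCard (m + 1) 𝒢1)
          (fun J X => c L k * X ≤ ((FiX_G (κ L) k J (𝒢1 ∪ Icc 1 L) X).card : ℝ)) (X0 L k) ?_
        intro X hX
        obtain ⟨J, hJ1, hJ2, hJ3⟩ := hcX L k hk X hX
        exact ⟨J, mem_powersetCard.2 ⟨hJ1, hJ2⟩, hJ3⟩)
    obtain ⟨hJ1, hJ2⟩ := mem_powersetCard.1 hJ
    refine ⟨J, hJ1.trans hsub, hJ2, fun L => ?_⟩
    obtain ⟨L', hLL, hL'⟩ := hJQ L
    refine ⟨⌈2 / κ L'⌉₊, fun k => ?_⟩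
    obtain ⟨k', hkk, hk'⟩ := hL' (max k 3)
    have hkk1 : k ≤ k' := (le_max_left _ _).trans hkk
    obtain ⟨N, hN⟩ := FiX_P hR 𝒢1 L' k' (κ L') (hκ L')
    refine ⟨⟨c L' k', hc _ _, fun X1 => ?_⟩, fun N0 => ?_⟩
    · obtain ⟨X, hX, h1⟩ := hk' (max X1 N)
      refine ⟨X, (le_max_left _ _).trans hX, h1.trans (FiX_card (X := X) (fun b hb => ?_)
        fun a ha => ⟨ha.1, ha.2.1⟩)⟩
      obtain ⟨hb1, hbX, s, r, hs, hr, hse, hre, -, hpr, hap⟩ :=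
        hN X ((le_max_right _ _).trans hX) J b hb L k hLL hkk1
      exact ⟨hb1, hbX, s, r, hs, hr, hse, hre, hpr, hap⟩
    · have hc0 : 0 < c L' k' := hc L' k'
      obtain ⟨N1, hN1⟩ := FiX_L (2 * Real.log 2)
      obtain ⟨N2, hN2⟩ := FiX_log (max 1 (-2 * Real.log (c L' k')))
      obtain ⟨X, hX, h1⟩ := hk' (max (max (max N N1) (max N2 1)) ⌈N0 / c L' k'⌉₊)
      have hXN : N ≤ X := (le_max_left _ _).trans ((le_max_left _ _).trans
        ((le_max_left _ _).trans hX))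
      have hXN1 : N1 ≤ X := (le_max_right _ _).trans ((le_max_left _ _).trans
        ((le_max_left _ _).trans hX))
      have hXN2 : N2 ≤ X := (le_max_left _ _).trans ((le_max_right _ _).trans
        ((le_max_left _ _).trans hX))
      have hX1 : 1 ≤ X := (le_max_right _ _).trans ((le_max_right _ _).trans
        ((le_max_left _ _).trans hX))
      have hXc : (N0 : ℝ) ≤ c L' k' * X := by
        have h2 : (N0 : ℝ) / c L' k' ≤ X := by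
          refine (Nat.le_ceil _).trans ?_
          exact_mod_cast (le_max_right _ _).trans hX
        rw [div_le_iff₀ hc0] at h2
        linarith
      have hL2 := hN1 X hXN1
      have hl := hN2 X hXN2
      have hl1 : 1 ≤ Real.log X := (le_max_left _ _).trans hl
      have hl2 : -2 * Real.log (c L' k') ≤ Real.log X := (le_max_right _ _).trans hl
      have hX0 : (0 : ℝ) < X := by exact_mod_cast hX1
      have hy : 0 < c L' k' * X := mul_pos hc0 hX0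
      obtain ⟨b, hb, hby⟩ := FiX_max hy h1 fun b hb => (FiX_mem hb).1.1
      obtain ⟨hb1, hbX, s, r, hs, hr, -, -, hlr, hpr, hap⟩ := hN X hXN J b hb L k hLL hkk1
      have hbn : b ≤ b * s := Nat.le_mul_of_pos_right b (by omega)
      have hyn : c L' k' * X ≤ ((b * s : ℕ) : ℝ) := by
        refine hby.trans ?_
        exact_mod_cast hbn
      refine ⟨b * s, r, ?_, hr, FiX_exp (by omega) ?_, hpr, hap⟩
      · have h2 := hXc.trans hyn
        exact_mod_cast h2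
      · have h2 : Real.log (c L' k') + Real.log X ≤ Real.log ((b * s : ℕ) : ℝ) := by
          rw [← Real.log_mul hc0.ne' hX0.ne']
          exact Real.log_le_log hy hyn
        have h3 : Real.log X / 2 ≤ Real.log ((b * s : ℕ) : ℝ) := by linarith
        have h4 : Real.log (Real.log X) - Real.log 2 ≤
            Real.log (Real.log ((b * s : ℕ) : ℝ)) := by
          rw [← Real.log_div (by linarith) (by norm_num)]
          exact Real.log_le_log (by linarith) h3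
        have hlog2 : 0 < Real.log 2 := Real.log_pos (by norm_num)
        have h5 : Real.log (Real.log X) / 2 ≤ Real.log (Real.log ((b * s : ℕ) : ℝ)) := by
          linarith
        have h6 : (Real.log (Real.log X) / 2) ^ 3 ≤
            (Real.log (Real.log ((b * s : ℕ) : ℝ))) ^ 3 :=
          pow_le_pow_left₀ (by linarith) h5 3
        have h7 : (Real.log (Real.log X) / 2) ^ 3 = (Real.log (Real.log X)) ^ 3 / 8 := by ring
        linarith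

end Pool.Agent.Lib.MP_9f2731_nt.CG.Tw
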