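import Pool.Agent.Lib.MP_9f2731_nt.CG.Tw.SpecX

/-!
MP_9f2731_nt, CG, chapter Tw, module Ft3: the special case of the powers of 2.
-/

namespace Pool.Agent.Lib.MP_9f2731_nt.CG.Tw

open Finset
open Pool.Agent.Lib.MP_9f2731_nt.GP
open Pool.Agent.Lib.MP_9f2731_nt.GP.Rel
open Pool.Agent.Lib.MP_9f2731_nt.QL
open Pool.Agent.Lib.MP_9f2731_nt.QL.Aw

private theorem Ft3_size (N n d : ℕ) (h : max N 3 ≤ n) :
    N ≤ 2 ^ d * n + 1 ∧ Real.exp ((Real.log (Real.log n)) ^ 3) ≤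
      Real.exp ((Real.log (Real.log ((2 ^ d * n + 1 : ℕ) : ℝ))) ^ 3) := by
  have hN : N ≤ n := le_trans (le_max_left _ _) h
  have h3 : 3 ≤ n := le_trans (le_max_right _ _) h
  have h1 : 1 ≤ 2 ^ d := Nat.one_le_two_pow
  have hle : n ≤ 2 ^ d * n + 1 := by nlinarith
  refine ⟨hN.trans hle, ?_⟩
  have hn : (3 : ℝ) ≤ (n : ℝ) := by exact_mod_cast h3
  have hlog : 0 < Real.log (n : ℝ) := Real.log_pos (by linarith)
  have hle' : (n : ℝ) ≤ ((2 ^ d * n + 1 : ℕ) : ℝ) := by exact_mod_cast hle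
  have hl1 : Real.log (n : ℝ) ≤ Real.log ((2 ^ d * n + 1 : ℕ) : ℝ) := Real.log_le_log (by linarith) hle'
  have hl2 : Real.log (Real.log (n : ℝ)) ≤ Real.log (Real.log ((2 ^ d * n + 1 : ℕ) : ℝ)) :=
    Real.log_le_log hlog hl1
  exact Real.exp_le_exp.2 ((Odd.strictMono_pow (by decide : Odd 3)).monotone hl2)

/-- Module Ft3. -/
theorem pFt3 (h : CgrStmt) : Ft3Stmt := by
  classical
  intro m
  obtain ⟨K, hK⟩ := h m
  have hinj : Function.Injective (fun l : ℕ => 2 ^ l) := Nat.pow_right_injective le_rfl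
  have hcard : ((range K).image (fun l : ℕ => 2 ^ l)).card = K := by
    rw [card_image_of_injective _ hinj, card_range]
  obtain ⟨-, J, hJ, hJc, hJk⟩ := hK ((range K).image (fun l : ℕ => 2 ^ l)) hcard.ge (by
    intro g hg
    obtain ⟨l, -, rfl⟩ := mem_image.1 hg
    exact Nat.one_le_two_pow)
  obtain ⟨ℰ, hℰ⟩ : ∃ ℰ : Finset ℕ, ℰ = (range K).filter (fun l => 2 ^ l ∈ J) := ⟨_, rfl⟩
  have hJE : J = ℰ.image (fun l : ℕ => 2 ^ l) := by
    ext g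
    constructor
    · intro hg
      obtain ⟨l, hl, hlg⟩ := mem_image.1 (hJ hg)
      refine mem_image.2 ⟨l, ?_, hlg⟩
      rw [hℰ]
      refine mem_filter.2 ⟨hl, ?_⟩
      have hlg' : 2 ^ l = g := hlg
      rw [hlg']
      exact hg
    · intro hg
      obtain ⟨l, hl, hlg⟩ := mem_image.1 hg
      rw [hℰ] at hl
      have h2 := (mem_filter.1 hl).2
      have hlg' : 2 ^ l = g := hlg
      rw [hlg'] at h2
      exact h2
  have hmem' : ∀ l ∈ ℰ, 2 ^ l ∈ J := by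
    intro l hl
    rw [hℰ] at hl
    exact (mem_filter.1 hl).2
  have hEc : ℰ.card = m + 1 := by
    rw [hJE, card_image_of_injective _ hinj] at hJc
    exact hJc
  have hmem : ∀ l : Fin (m + 1), 2 ^ (ℰ.orderEmbOfFin hEc l) ∈ J := by
    intro l
    exact hmem' _ (ℰ.orderEmbOfFin_mem hEc l)
  have hmono : ∀ a b : Fin (m + 1), a < b → ℰ.orderEmbOfFin hEc a < ℰ.orderEmbOfFin hEc b :=
    fun a b hab => (ℰ.orderEmbOfFin hEc).strictMono hab
  have hmin : ∀ a : Fin (m + 1), ℰ.orderEmbOfFin hEc 0 ≤ ℰ.orderEmbOfFin hEc a :=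
    fun a => (ℰ.orderEmbOfFin hEc).monotone (Fin.zero_le a)
  refine ⟨fun l => ℰ.orderEmbOfFin hEc l - ℰ.orderEmbOfFin hEc 0, ?_, ?_, ?_⟩
  · intro a b hab
    have h1 := hmono a b hab
    have h2 := hmin a
    show ℰ.orderEmbOfFin hEc a - ℰ.orderEmbOfFin hEc 0 < ℰ.orderEmbOfFin hEc b - ℰ.orderEmbOfFin hEc 0
    omega
  · show ℰ.orderEmbOfFin hEc 0 - ℰ.orderEmbOfFin hEc 0 = 0
    omega
  · intro L
    obtain ⟨C, hC⟩ := hJk (2 ^ (ℰ.orderEmbOfFin hEc 0 + L))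
    refine ⟨C, fun k N => ?_⟩
    obtain ⟨-, h3⟩ := hC (max k 1)
    obtain ⟨n, r, hn, hr, hrle, hg, hA⟩ := h3 (max N 3)
    obtain ⟨hs1, hs2⟩ := Ft3_size N n (ℰ.orderEmbOfFin hEc 0) hn
    refine ⟨2 ^ (ℰ.orderEmbOfFin hEc 0) * n + 1, r, hs1, ?_, hr, hrle.trans hs2, ?_, ?_⟩
    · have h4 := hg 0 (lt_of_lt_of_le Nat.zero_lt_one (le_max_right _ _)) _ (hmem 0)
      rw [pow_zero, mul_one] at h4
      exact h4
    · intro i hi l
      have h4 := hg i (lt_of_lt_of_le hi (le_max_left _ _)) _ (hmem l)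
      have h5 : 2 ^ (ℰ.orderEmbOfFin hEc l - ℰ.orderEmbOfFin hEc 0) * 2 ^ (ℰ.orderEmbOfFin hEc 0)
          = 2 ^ (ℰ.orderEmbOfFin hEc l) := by
        rw [← pow_add, Nat.sub_add_cancel (hmin l)]
      have h6 : 2 ^ (ℰ.orderEmbOfFin hEc l - ℰ.orderEmbOfFin hEc 0) * r ^ i *
          (2 ^ (ℰ.orderEmbOfFin hEc 0) * n + 1 - 1) + 1 = 2 ^ (ℰ.orderEmbOfFin hEc l) * r ^ i * n + 1 := by
        rw [Nat.add_sub_cancel, ← h5]
        ring
      show (2 ^ (ℰ.orderEmbOfFin hEc l - ℰ.orderEmbOfFin hEc 0) * r ^ i *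
          (2 ^ (ℰ.orderEmbOfFin hEc 0) * n + 1 - 1) + 1).Prime
      rw [h6]
      exact h4
    · intro i hi a ha
      have h4 := hA i (lt_of_lt_of_le hi (le_max_left _ _)) (2 ^ (ℰ.orderEmbOfFin hEc 0 + a))
        Nat.one_le_two_pow (Nat.pow_le_pow_right (by norm_num) (by omega))
      have h6 : 2 ^ a * r ^ i * (2 ^ (ℰ.orderEmbOfFin hEc 0) * n + 1 - 1) + 1 =
          2 ^ (ℰ.orderEmbOfFin hEc 0 + a) * r ^ i * n + 1 := by
        rw [Nat.add_sub_cancel, pow_add]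
        ring
      rw [h6]
      exact h4

end Pool.Agent.Lib.MP_9f2731_nt.CG.Tw
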