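import Pool.Agent.Lib.MP_9f2731_nt.CG.Tw.Spec

/-!
MP_9f2731_nt, CG/Tw, module Gdg: linear forms conditions for most b for a general majorant (QL/Aw/Gdb).
-/

namespace Pool.Agent.Lib.MP_9f2731_nt.CG.Tw

open Finset
open Pool.Agent.Lib.MP_9f2731_nt.GP
open Pool.Agent.Lib.MP_9f2731_nt.GP.Rel
open Pool.Agent.Lib.MP_9f2731_nt.GP.Asm (eb)
open Pool.Agent.Lib.MP_9f2731_nt.QL
open Pool.Agent.Lib.MP_9f2731_nt.QL.Aw

private theorem Gdg_av_nonneg {α : Type} [Fintype α] {g : α → ℝ} (hg : ∀ x, 0 ≤ g x) : 0 ≤ av g :=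
  div_nonneg (Finset.sum_nonneg fun x _ => hg x) (Nat.cast_nonneg _)

private theorem Gdg_cs {α : Type} [Fintype α] (g : α → ℝ) :
    (av (fun x => |g x|)) ^ 2 ≤ av (fun x => (g x) ^ 2) := by
  unfold av
  rcases Nat.eq_zero_or_pos (Fintype.card α) with h0 | h0
  · rw [h0]; simp
  have hN : (0 : ℝ) < (Fintype.card α : ℝ) := by exact_mod_cast h0
  have h1 : (∑ x, |g x|) ^ 2 ≤ (Fintype.card α : ℝ) * ∑ x, (g x) ^ 2 := by
    have h2 := sq_sum_le_card_mul_sum_sq (s := (Finset.univ : Finset α)) (f := fun x => |g x|)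
    simpa [sq_abs] using h2
  rw [div_pow, div_le_div_iff₀ (by positivity) hN]
  calc (∑ x, |g x|) ^ 2 * (Fintype.card α : ℝ)
      ≤ ((Fintype.card α : ℝ) * ∑ x, (g x) ^ 2) * (Fintype.card α : ℝ) :=
        mul_le_mul_of_nonneg_right h1 hN.le
    _ = (∑ x, (g x) ^ 2) * (Fintype.card α : ℝ) ^ 2 := by ring

private theorem Gdg_un {ι : Type} [DecidableEq ι] (I : Finset ι) (B : ι → Finset ℕ) (t : ℝ)
    (h : ∀ i ∈ I, ((B i).card : ℝ) ≤ t) : ((I.biUnion B).card : ℝ) ≤ I.card * t := by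
  have h1 : ((I.biUnion B).card : ℝ) ≤ ∑ i ∈ I, ((B i).card : ℝ) := by
    exact_mod_cast Finset.card_biUnion_le
  refine h1.trans ?_
  have h2 := Finset.sum_le_card_nsmul I (fun i => ((B i).card : ℝ)) t h
  rwa [nsmul_eq_mul] at h2

theorem pGdg (nwa : NgAStmt) (nwb : NgBStmt) (sel : GP.Asm.SelStmt) : GdgStmt := by
  intro k n0 J θ η X T M h _ ν hk hJ hM hkM h2 hhM hX hη hθ hMO
  obtain ⟨gA, hgA⟩ : ∃ gA : Finset (Fin k → Bool) → ℕ → ℝ, gA = fun A b =>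
      (av (fun z : (Fin T → ZMod M) × (Fin k × Bool → Xb T M 2) =>
      ∏ ω ∈ A, ν b (z.1 + k.factorial • ∑ a, ((z.2 (a, ω a) : Xb T M 2) : Fin T → ZMod M))) -
        1) ^ 2 := ⟨_, rfl⟩
  obtain ⟨gS, hgS⟩ : ∃ gS : ℕ → Finset (Fin k × (Fin k → Bool)) → ℕ → ℝ, gS = fun m S b =>
      av (fun e : Fin T → ZMod M => (av (fun x : Fin k × Bool → Fin (k * n0 + 1) → Xb T M h =>
      ∏ p ∈ S, ν b (e + frw m p.1 (pk p.2 x))) - 1) ^ 2) := ⟨_, rfl⟩
  have hJ2 : 2 * 2 ^ k ≤ J := by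
    refine le_trans ?_ hJ
    have : 2 ^ k ≤ k * 2 ^ k := Nat.le_mul_of_pos_left _ (by omega)
    omega
  have hA : ∀ A, eb X (gA A) ≤ θ := by
    intro A
    rw [hgA]
    exact nwa k J θ X T M ν hJ2 hM hkM hMO A
  have hS : ∀ m S, (∀ p ∈ S, p.2 p.1 = false) → eb X (gS m S) ≤ θ := by
    intro m S hc
    rw [hgS]
    exact nwb k (k * n0 + 1) J m θ X T M h ν hk (by omega) hJ hM hkM h2 hhM hMO S hc
  have hA0 : ∀ A b, 0 ≤ gA A b := by
    intro A b
    rw [hgA]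
    exact sq_nonneg _
  have hS0 : ∀ m S b, 0 ≤ gS m S b := by
    intro m S b
    rw [hgS]
    exact Gdg_av_nonneg fun e => sq_nonneg _
  have hη2 : 0 < η ^ 2 := by positivity
  have hXR : (0 : ℝ) ≤ (X : ℝ) := Nat.cast_nonneg _
  have key : ∀ g : ℕ → ℝ, (∀ b, 0 ≤ g b) → eb X g ≤ θ →
      (((Icc 1 X).filter (fun b => η ^ 2 < g b)).card : ℝ) ≤ θ / η ^ 2 * X := by
    intro g hg hgθ
    refine (sel.2 X g (η ^ 2) hX hη2 hg).trans ?_
    rw [div_mul_eq_mul_div, mul_comm (X : ℝ)]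
    exact div_le_div_of_nonneg_right (mul_le_mul_of_nonneg_right hgθ hXR) hη2.le
  obtain ⟨CS, hCS⟩ : ∃ CS : Finset (Finset (Fin k × (Fin k → Bool))),
      CS = univ.filter (fun S => ∀ p ∈ S, p.2 p.1 = false) := ⟨_, rfl⟩
  have hb1 := Gdg_un (univ : Finset (Finset (Fin k → Bool)))
    (fun A => (Icc 1 X).filter (fun b => η ^ 2 < gA A b)) (θ / η ^ 2 * X)
    (fun A _ => key _ (hA0 A) (hA A))
  have hb2 := Gdg_un (range n0 ×ˢ CS)
    (fun p => (Icc 1 X).filter (fun b => η ^ 2 < gS p.1 p.2 b)) (θ / η ^ 2 * X) (by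
      intro p hp
      refine key _ (hS0 p.1 p.2) (hS p.1 p.2 ?_)
      have := (Finset.mem_product.1 hp).2
      rw [hCS, Finset.mem_filter] at this
      exact this.2)
  have hc1 : ((univ : Finset (Finset (Fin k → Bool))).card : ℝ) = 2 ^ (2 ^ k) := by
    rw [Finset.card_univ, Fintype.card_finset, Fintype.card_fun, Fintype.card_bool,
      Fintype.card_fin]
    push_cast
    rfl
  have hc2 : (((range n0 ×ˢ CS).card : ℕ) : ℝ) ≤ n0 * 2 ^ (k * 2 ^ k) := by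
    have h3 : CS.card ≤ 2 ^ (k * 2 ^ k) := by
      have h4 : CS.card ≤ (univ : Finset (Finset (Fin k × (Fin k → Bool)))).card :=
        Finset.card_le_univ _
      rwa [Finset.card_univ, Fintype.card_finset, Fintype.card_prod, Fintype.card_fun,
        Fintype.card_bool, Fintype.card_fin] at h4
    rw [Finset.card_product, Finset.card_range]
    push_cast
    have h5 : (CS.card : ℝ) ≤ 2 ^ (k * 2 ^ k) := by exact_mod_cast h3
    exact mul_le_mul_of_nonneg_left h5 (Nat.cast_nonneg _)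
  have ht0 : 0 ≤ θ / η ^ 2 * X := mul_nonneg (div_nonneg hθ hη2.le) hXR
  refine ((Nat.cast_le (α := ℝ)).2 ((Finset.card_le_card (t :=
      (univ : Finset (Finset (Fin k → Bool))).biUnion
        (fun A => (Icc 1 X).filter (fun b => η ^ 2 < gA A b)) ∪
      (range n0 ×ˢ CS).biUnion
        (fun p => (Icc 1 X).filter (fun b => η ^ 2 < gS p.1 p.2 b))) ?_).trans
    (Finset.card_union_le _ _))).trans ?_
  · intro b hb
    classical
    obtain ⟨hbX, hb⟩ := Finset.mem_filter.1 hb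
    rw [Finset.mem_union, Finset.mem_biUnion, Finset.mem_biUnion]
    by_cases hN : NLF k k.factorial η (Xb T M 2) (ν b)
    · right
      have hW : ¬ WLF k n0 η (Xb T M h) (ν b) := fun hW => hb ⟨hN, hW⟩
      unfold WLF at hW
      push Not at hW
      obtain ⟨m, hm, S, hSc, hlt⟩ := hW
      refine ⟨(m, S), ?_, ?_⟩
      · rw [Finset.mem_product, Finset.mem_range, hCS, Finset.mem_filter]
        exact ⟨hm, Finset.mem_univ _, hSc⟩
      · rw [Finset.mem_filter]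
        refine ⟨hbX, ?_⟩
        rw [hgS]
        refine lt_of_lt_of_le ?_ (Gdg_cs _)
        exact pow_lt_pow_left₀ hlt hη.le two_ne_zero
    · left
      unfold NLF at hN
      push Not at hN
      obtain ⟨A, hlt⟩ := hN
      refine ⟨A, Finset.mem_univ _, ?_⟩
      rw [Finset.mem_filter]
      refine ⟨hbX, ?_⟩
      rw [hgA]
      show η ^ 2 < (_ : ℝ) ^ 2
      rw [← sq_abs (_ - 1)]
      exact pow_lt_pow_left₀ hlt hη.le two_ne_zero
  rw [Nat.cast_add]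
  calc _ ≤ (2 ^ (2 ^ k) : ℝ) * (θ / η ^ 2 * X) + (n0 * 2 ^ (k * 2 ^ k)) * (θ / η ^ 2 * X) :=
        add_le_add (hb1.trans (by rw [hc1])) (hb2.trans (mul_le_mul_of_nonneg_right hc2 ht0))
    _ = _ := by ring

end Pool.Agent.Lib.MP_9f2731_nt.CG.Tw
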