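import Pool.Agent.Lib.MP_9f2731_nt.CG.Tw.Spec
import Pool.Agent.Lib.MP_9f2731_nt.QL.Aw.GnV

/-!
MP_9f2731_nt, CG/Tw, module GnK: mean values over b of products of the majorants, adapted from QL/Aw/GnV.
-/

namespace Pool.Agent.Lib.MP_9f2731_nt.CG.Tw

open Finset
open Pool.Agent.Lib.MP_9f2731_nt.GP
open Pool.Agent.Lib.MP_9f2731_nt.GP.Rel
open Pool.Agent.Lib.MP_9f2731_nt.GP.Asm (eb)
open Pool.Agent.Lib.MP_9f2731_nt.QL
open Pool.Agent.Lib.MP_9f2731_nt.QL.Aw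
open Pool.Agent.Lib.MP_9f2731_nt.QL.Aw.GnVAux (dbl_eq dbl_nonneg prod_le nu_nonneg av_mono av_add
  av_mul av_const av_sum eb_av)

private theorem GnK_prod (𝒢 : Finset ℕ) (V : ℕ) (κ : ℝ) {T M : ℕ} (q : Fin T → ℕ) (X b : ℕ)
    {ι : Type} (I : Finset ι) (x : ι → (Fin T → ZMod M)) :
    ∏ i ∈ I, nuK 𝒢 V κ q X b (x i) =
      ∏ p ∈ I ×ˢ 𝒢, nuV V ((X : ℝ) ^ κ) (V * b * (p.2 * mltv q (x p.1)) + 1) := by
  rw [Finset.prod_product]
  rfl

private theorem GnK_pointwise {J B N V : ℕ} {𝒢 : Finset ℕ} {κ C3 θ : ℝ} {T : ℕ} {q : Fin T → ℕ}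
    {X M : ℕ} [NeZero M] (hκ : 0 < κ) (hX : 1 ≤ X) (hC3 : 0 < C3) (hN : J * 𝒢.card ≤ N)
    (hGB : ∀ g ∈ 𝒢, 1 ≤ g ∧ g ≤ B)
    (hL1 : 1 ≤ Real.log X) (hL : (N : ℝ) * C3 + 2 ≤ Real.log X) (hθ : 0 < θ)
    (hcor : ∀ S : Finset (ℕ × (Fin T → ZMod M)), S.card ≤ N → (∀ a ∈ S, 1 ≤ a.1 ∧ a.1 ≤ B) →
      |(∑ b ∈ Icc 1 X, ∏ m ∈ S.image (fun a => a.1 * mltv q a.2),
        nuV V ((X : ℝ) ^ κ) (V * b * m + 1)) / X - 1| ≤ θ)
    (hmom : ∀ a : ℕ × (Fin T → ZMod M), 1 ≤ a.1 → a.1 ≤ B →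
      (∑ b ∈ Icc 1 X, (nuV V ((X : ℝ) ^ κ) (V * b * (a.1 * mltv q a.2) + 1)) ^ N) / X ≤
        C3 * (Real.log X) ^ C3)
    (hinj : ∀ a a' : ℕ × (Fin T → ZMod M), 1 ≤ a.1 → a.1 ≤ B → 1 ≤ a'.1 → a'.1 ≤ B →
      a.1 * mltv q a.2 = a'.1 * mltv q a'.2 → a = a')
    {ι : Type} [DecidableEq ι] (I : Finset ι) (hI : I.card ≤ J)
    (x : ι → (Fin T → ZMod M)) :
    |eb X (fun b => ∏ i ∈ I, nuK 𝒢 V κ q X b (x i)) - 1|
      ≤ θ + (Real.log X) ^ (C3 + 1)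
          * ∑ i ∈ I, ∑ i' ∈ I.erase i, (if x i = x i' then (1 : ℝ) else 0) := by
  classical
  have hX0 : (0 : ℝ) < X := by exact_mod_cast hX
  have hL0 : (0 : ℝ) < Real.log X := by linarith
  have hEq : ∀ i i', (0 : ℝ) ≤ (if x i = x i' then (1 : ℝ) else 0) := by
    intro i i'
    split_ifs <;> norm_num
  have hBn := dbl_nonneg I (fun i i' => (if x i = x i' then (1 : ℝ) else 0)) hEq
  have hP : 0 ≤ (Real.log X) ^ (C3 + 1) := by positivity
  have hcardP : (I ×ˢ 𝒢).card ≤ N := by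
    rw [Finset.card_product]
    exact (Nat.mul_le_mul_right 𝒢.card hI).trans hN
  simp only [GnK_prod]
  by_cases hj : Set.InjOn x I
  · -- injective case
    have hpj : Set.InjOn (fun p : ι × ℕ => (p.2, x p.1)) (I ×ˢ 𝒢 : Finset (ι × ℕ)) := by
      intro u hu v hv h
      rw [Finset.mem_coe, Finset.mem_product] at hu hv
      have h' := Prod.mk.inj h
      exact Prod.ext (hj hu.1 hv.1 h'.2) h'.1
    obtain ⟨S, hS⟩ : ∃ S : Finset (ℕ × (Fin T → ZMod M)),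
      S = (I ×ˢ 𝒢).image (fun p : ι × ℕ => (p.2, x p.1)) := ⟨_, rfl⟩
    have hSc : S.card ≤ N := by
      rw [hS]
      exact Finset.card_image_le.trans hcardP
    have hSK : ∀ a ∈ S, 1 ≤ a.1 ∧ a.1 ≤ B := by
      intro a ha
      rw [hS, Finset.mem_image] at ha
      obtain ⟨p, hp, rfl⟩ := ha
      exact hGB _ (Finset.mem_product.1 hp).2
    have h1 := hcor S hSc hSK
    have hmj : Set.InjOn (fun a : ℕ × (Fin T → ZMod M) => a.1 * mltv q a.2) S :=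
      fun u hu v hv h => hinj u v (hSK u hu).1 (hSK u hu).2 (hSK v hv).1 (hSK v hv).2 h
    have hpe : ∀ b, ∏ m ∈ S.image (fun a => a.1 * mltv q a.2),
          nuV V ((X : ℝ) ^ κ) (V * b * m + 1)
        = ∏ p ∈ I ×ˢ 𝒢, nuV V ((X : ℝ) ^ κ) (V * b * (p.2 * mltv q (x p.1)) + 1) := by
      intro b
      rw [Finset.prod_image hmj, hS, Finset.prod_image hpj]
    simp only [hpe] at h1
    have h5 := mul_nonneg hP hBn
    unfold eb
    linarith
  · -- a coincidence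
    have hco : ∃ i ∈ I, ∃ i' ∈ I, i ≠ i' ∧ x i = x i' := by
      by_contra hcon
      push Not at hcon
      refine hj fun i hi i' hi' h => ?_
      by_contra hne
      exact hcon i hi i' hi' hne h
    obtain ⟨i, hi, i', hi', hne, hxx⟩ := hco
    have hone : (1 : ℝ) ≤ ∑ i ∈ I, ∑ i' ∈ I.erase i, (if x i = x i' then (1 : ℝ) else 0) := by
      rw [dbl_eq]
      have hmem : (i, i') ∈ (I ×ˢ I).filter (fun p => p.2 ≠ p.1) := by
        simp only [Finset.mem_filter, Finset.mem_product]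
        exact ⟨⟨hi, hi'⟩, fun h => hne h.symm⟩
      have h := Finset.single_le_sum (f := fun p : ι × ι => (if x p.1 = x p.2 then (1 : ℝ) else 0))
        (fun p _ => hEq p.1 p.2) hmem
      simp only [hxx, if_true] at h
      exact h
    obtain ⟨F, hF⟩ : ∃ F : ℕ → ι × ℕ → ℝ,
      F = fun b p => nuV V ((X : ℝ) ^ κ) (V * b * (p.2 * mltv q (x p.1)) + 1) := ⟨_, rfl⟩
    have hnn : ∀ b p, 0 ≤ F b p := fun b p => by rw [hF]; exact nu_nonneg hκ hX _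
    have hmomF : ∀ p ∈ I ×ˢ 𝒢, (∑ b ∈ Icc 1 X, F b p ^ N) / X ≤ C3 * (Real.log X) ^ C3 := by
      intro p hp
      have hp2 := hGB _ (Finset.mem_product.1 hp).2
      rw [hF]
      exact hmom (p.2, x p.1) hp2.1 hp2.2
    have hFe : (fun b => ∏ p ∈ I ×ˢ 𝒢,
        nuV V ((X : ℝ) ^ κ) (V * b * (p.2 * mltv q (x p.1)) + 1)) =
        fun b => ∏ p ∈ I ×ˢ 𝒢, F b p := by rw [hF]
    rw [hFe]
    have h1 : eb X (fun b => ∏ p ∈ I ×ˢ 𝒢, F b p)
        ≤ 1 + N * (C3 * (Real.log X) ^ C3) := by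
      unfold eb
      have h2 : ∑ b ∈ Icc 1 X, ∏ p ∈ I ×ˢ 𝒢, F b p
          ≤ ∑ b ∈ Icc 1 X, (1 + ∑ p ∈ I ×ˢ 𝒢, F b p ^ N) :=
        Finset.sum_le_sum fun b _ => prod_le _ _ N (fun p _ => hnn b p) hcardP
      have h3 : ∑ b ∈ Icc 1 X, (1 + ∑ p ∈ I ×ˢ 𝒢, F b p ^ N)
          = X + ∑ p ∈ I ×ˢ 𝒢, ∑ b ∈ Icc 1 X, F b p ^ N := by
        rw [Finset.sum_add_distrib, Finset.sum_comm]
        simp
      rw [h3] at h2
      have hLp : 0 ≤ C3 * (Real.log X) ^ C3 := by positivity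
      calc (∑ b ∈ Icc 1 X, ∏ p ∈ I ×ˢ 𝒢, F b p) / X
          ≤ (X + ∑ p ∈ I ×ˢ 𝒢, ∑ b ∈ Icc 1 X, F b p ^ N) / X :=
            div_le_div_of_nonneg_right h2 hX0.le
        _ = 1 + ∑ p ∈ I ×ˢ 𝒢, (∑ b ∈ Icc 1 X, F b p ^ N) / X := by
            rw [add_div, div_self hX0.ne', Finset.sum_div]
        _ ≤ 1 + ∑ p ∈ I ×ˢ 𝒢, C3 * (Real.log X) ^ C3 := by
            gcongr with p hp
            exact hmomF p hp
        _ = 1 + (I ×ˢ 𝒢).card * (C3 * (Real.log X) ^ C3) := by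
            rw [Finset.sum_const, nsmul_eq_mul]
        _ ≤ 1 + N * (C3 * (Real.log X) ^ C3) := by
            gcongr
    have h0 : 0 ≤ eb X (fun b => ∏ p ∈ I ×ˢ 𝒢, F b p) := by
      unfold eb
      exact div_nonneg (Finset.sum_nonneg fun b _ => Finset.prod_nonneg fun p _ => hnn b p) hX0.le
    have hpow : (1 : ℝ) ≤ (Real.log X) ^ C3 := Real.one_le_rpow hL1 hC3.le
    have hJC : 0 ≤ (N : ℝ) * C3 := by positivity
    have h4 : 2 + N * (C3 * (Real.log X) ^ C3) ≤ (Real.log X) ^ (C3 + 1) := by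
      rw [Real.rpow_add hL0, Real.rpow_one]
      calc 2 + N * (C3 * (Real.log X) ^ C3) ≤ ((N : ℝ) * C3 + 2) * (Real.log X) ^ C3 := by
            nlinarith
        _ ≤ Real.log X * (Real.log X) ^ C3 := mul_le_mul_of_nonneg_right hL (by positivity)
        _ = _ := by ring
    have h5 : |eb X (fun b => ∏ p ∈ I ×ˢ 𝒢, F b p) - 1|
        ≤ 2 + N * (C3 * (Real.log X) ^ C3) := by
      have h6 : 0 ≤ N * (C3 * (Real.log X) ^ C3) := by positivity
      rw [abs_le]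
      constructor <;> linarith
    have h6 : (Real.log X) ^ (C3 + 1) ≤ (Real.log X) ^ (C3 + 1)
        * ∑ i ∈ I, ∑ i' ∈ I.erase i, (if x i = x i' then (1 : ℝ) else 0) := by
      nlinarith
    linarith

theorem pGnK (hCor : CorVStmt) (hMom : MomVStmt) (hInK : InKStmt) (hGro : GroStmt)
    (hSgK : SgKStmt) : GnKStmt := by
  intro J B 𝒢 κ1 hJ hGB hκ1
  obtain ⟨N, hNJ, hN1, hNκ⟩ : ∃ N : ℕ, J * 𝒢.card ≤ N ∧ 1 ≤ N ∧ 1 / (2 * κ1) ≤ (N : ℝ) := by
    refine ⟨J * 𝒢.card + 1 + ⌈1 / (2 * κ1)⌉₊, by omega, by omega, ?_⟩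
    refine (Nat.le_ceil _).trans ?_
    exact_mod_cast Nat.le_add_left _ _
  obtain ⟨κ, C1, hκ, hJκ, hC1, hcor⟩ := hCor N
  obtain ⟨C3, hC3, hmom⟩ := hMom N
  have hN' : (1 : ℝ) ≤ N := by exact_mod_cast hN1
  have hκle : κ ≤ κ1 := by
    rw [div_le_iff₀ (by positivity)] at hNκ
    by_contra hcon
    push Not at hcon
    have : (N : ℝ) * (2 * κ1) < 2 * N * κ := by nlinarith
    linarith
  refine ⟨κ, C3 + 1, hκ, by nlinarith, hκle, by linarith, ?_⟩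
  intro θ hθ
  have hη0 : 0 < θ / (4 * C1) := by positivity
  obtain ⟨w1, hw1, hSg⟩ := hSgK N B C1 (θ / (4 * C1)) hC1 hη0
  obtain ⟨W, hW⟩ : ∃ W : ℕ, W = max (max (B + 2) ⌈4 * C1 / θ⌉₊) w1 := ⟨_, rfl⟩
  have hW1 : B + 2 ≤ W := by rw [hW]; exact (le_max_left _ _).trans (le_max_left _ _)
  have hW2 : 4 * C1 / θ ≤ W := by
    rw [hW]
    exact (Nat.le_ceil _).trans (by exact_mod_cast (le_max_right _ _).trans (le_max_left _ _))
  have hW3 : w1 ≤ W := by rw [hW]; exact le_max_right _ _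
  refine ⟨W, ?_⟩
  intro w2 hw2 A E hA hE
  obtain ⟨X1, hX1⟩ := hSg A E hA hE w2 (hW3.trans hw2)
  have hA' : (1 : ℝ) ≤ A := by exact_mod_cast hA
  obtain ⟨X2, hX2⟩ := hGro A E w2 3 1 (min 1 (θ / (4 * C1))) (-1) hA hE one_pos
    (lt_min one_pos hη0) (by linarith)
  refine ⟨max (max X1 X2) (max C1 (Real.exp (max 1 ((N : ℝ) * C3 + 2)))), ?_⟩
  intro X hX T M w p0 V _ q hsclK Y _ _ ι _ I ψ hI
  have hscl := hsclK.hS
  have hXa : X1 ≤ X := ((le_max_left _ _).trans (le_max_left _ _)).trans hX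
  have hXb : X2 ≤ X := ((le_max_right _ _).trans (le_max_left _ _)).trans hX
  have hXc : C1 ≤ X := ((le_max_left _ _).trans (le_max_right _ _)).trans hX
  have hXd : Real.exp (max 1 ((N : ℝ) * C3 + 2)) ≤ X :=
    ((le_max_right _ _).trans (le_max_right _ _)).trans hX
  have hXp : (0 : ℝ) < X := lt_of_lt_of_le (Real.exp_pos _) hXd
  have hLL : max 1 ((N : ℝ) * C3 + 2) ≤ Real.log X := (Real.le_log_iff_exp_le hXp).2 hXd
  have hL1 : 1 ≤ Real.log X := (le_max_left _ _).trans hLL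
  have hL2 : (N : ℝ) * C3 + 2 ≤ Real.log X := (le_max_right _ _).trans hLL
  have hX1' : 1 ≤ X := by exact_mod_cast hXp
  obtain ⟨g1, g2, g3, g4, g5, g6, g7, g8, g9, g10, -⟩ := hX2 X hXb T M w p0 V q hscl
  obtain ⟨m1, m2, -⟩ := hInK T B q (fun j => (hscl.hq j).1) hsclK.hq2 hscl.hqi M
  have hsm := m2 V (fun p hp hpB => g8 p hp (by omega)) g7
  have hη1 : min 1 (θ / (4 * C1)) ≤ 1 := min_le_left _ _
  have hη2 : min 1 (θ / (4 * C1)) ≤ θ / (4 * C1) := min_le_right _ _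
  have hL0 : 0 < Real.log X := by linarith
  have hlog : (1 + Real.log V) ^ 6 ≤ Real.log X :=
    g10.trans (by nlinarith)
  have hcor' : ∀ S : Finset (ℕ × (Fin T → ZMod M)), S.card ≤ N → (∀ a ∈ S, 1 ≤ a.1 ∧ a.1 ≤ B) →
      |(∑ b ∈ Icc 1 X, ∏ m ∈ S.image (fun a => a.1 * mltv q a.2),
        nuV V ((X : ℝ) ^ κ) (V * b * m + 1)) / X - 1| ≤ θ := by
    intro S hS hSK
    have h1 := hcor X V w2 (S.image (fun a => a.1 * mltv q a.2)) hXc (by omega) g6 g8 hlog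
      (Finset.card_image_le.trans hS)
      (by
        intro m hm
        rw [Finset.mem_image] at hm
        obtain ⟨x, hx, rfl⟩ := hm
        exact hsm x (hSK x hx).1 (hSK x hx).2)
    have h2 := hX1 X hXa T M w p0 V q hsclK S hS hSK
    refine h1.trans ?_
    have h3 : (1 + Real.log V) ^ 6 / Real.log X ≤ θ / (4 * C1) := by
      rw [div_le_iff₀ hL0]
      exact g10.trans (mul_le_mul_of_nonneg_right hη2 hL0.le)
    have hw2' : (W : ℝ) ≤ w2 := by exact_mod_cast hw2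
    have hWp : (0 : ℝ) < w2 := by exact_mod_cast (by omega : 0 < w2)
    have h4 : 1 / (w2 : ℝ) ≤ θ / (4 * C1) := by
      rw [div_le_div_iff₀ hWp (by positivity)]
      have hW2' := hW2.trans hw2'
      rw [div_le_iff₀ hθ] at hW2'
      linarith
    calc C1 * ((1 + Real.log V) ^ 6 / Real.log X + 1 / (w2 : ℝ) +
          (singV C1 V (Del (S.image (fun a => a.1 * mltv q a.2))) - 1))
        ≤ C1 * (θ / (4 * C1) + θ / (4 * C1) + θ / (4 * C1)) := by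
          apply mul_le_mul_of_nonneg_left _ hC1.le
          linarith
      _ = 3 / 4 * θ := by field_simp; ring
      _ ≤ θ := by linarith
  have hpt := fun y => GnK_pointwise (V := V) (κ := κ) (q := q) (X := X) (M := M) hκ hX1' hC3 hNJ
    hGB hL1 hL2 hθ hcor' (fun a ha1 ha2 => hmom κ X V (a.1 * mltv q a.2) hκ hJκ g1 g6
      (hsm a ha1 ha2).1) m1 I hI (fun i => ψ i y)
  have h1 : eb X (fun b => av (fun y => ∏ i ∈ I, nuK 𝒢 V κ q X b (ψ i y)))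
      = av (fun y => eb X (fun b => ∏ i ∈ I, nuK 𝒢 V κ q X b (ψ i y))) :=
    eb_av X (fun b y => ∏ i ∈ I, nuK 𝒢 V κ q X b (ψ i y))
  rw [h1]
  have h2 : av (fun y => θ + (Real.log X) ^ (C3 + 1)
          * ∑ i ∈ I, ∑ i' ∈ I.erase i, (if ψ i y = ψ i' y then (1 : ℝ) else 0))
      = θ + (Real.log X) ^ (C3 + 1) *
          ∑ i ∈ I, ∑ i' ∈ I.erase i, av (fun y => if ψ i y = ψ i' y then (1 : ℝ) else 0) := by
    rw [av_add, av_const, av_mul, av_sum]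
    simp only [av_sum]
  rw [← h2, abs_le]
  constructor
  · have h3 : av (fun y => -(θ + (Real.log X) ^ (C3 + 1)
          * ∑ i ∈ I, ∑ i' ∈ I.erase i, (if ψ i y = ψ i' y then (1 : ℝ) else 0)) + 1)
        ≤ av (fun y => eb X (fun b => ∏ i ∈ I, nuK 𝒢 V κ q X b (ψ i y))) := by
      refine av_mono fun y => ?_
      have := (abs_le.1 (hpt y)).1
      linarith
    have h4 : ∀ g : Y → ℝ, av (fun y => -(g y) + 1) = -av g + 1 := by
      intro g
      rw [av_add, av_const]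
      have : av (fun y => -g y) = -av g := by
        have := av_mul (-1) g
        simpa using this
      rw [this]
    rw [h4] at h3
    linarith
  · have h3 : av (fun y => eb X (fun b => ∏ i ∈ I, nuK 𝒢 V κ q X b (ψ i y)))
        ≤ av (fun y => (θ + (Real.log X) ^ (C3 + 1)
          * ∑ i ∈ I, ∑ i' ∈ I.erase i, (if ψ i y = ψ i' y then (1 : ℝ) else 0)) + 1) := by
      refine av_mono fun y => ?_
      have := (abs_le.1 (hpt y)).2
      linarith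
    rw [av_add _ (fun _ => (1 : ℝ)), av_const] at h3
    linarith

end Pool.Agent.Lib.MP_9f2731_nt.CG.Tw
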