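import Pool.Agent.Lib.MP_9f2731_nt.CG.Tw.Spec
import Pool.Agent.Lib.MP_9f2731_nt.QL.Aw.Gro

/-!
MP_9f2731_nt, CG/Tw, module GrK: sizes of the scale data.
-/

namespace Pool.Agent.Lib.MP_9f2731_nt.CG.Tw

open Finset
open Pool.Agent.Lib.MP_9f2731_nt.GP
open Pool.Agent.Lib.MP_9f2731_nt.GP.Rel
open Pool.Agent.Lib.MP_9f2731_nt.GP.Asm (eb)
open Pool.Agent.Lib.MP_9f2731_nt.QL
open Pool.Agent.Lib.MP_9f2731_nt.QL.Aw

theorem pGrK : GrKStmt := by
  intro A E w1 hA hE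
  obtain ⟨L0, hL0⟩ := GroAux.large A (8 * E) 8 1 1 one_pos one_pos
  refine ⟨Real.exp (Real.exp L0), ?_⟩
  intro X hX T M w p0 V q h
  have hX0 : (0 : ℝ) < X := lt_of_lt_of_le (Real.exp_pos _) hX
  have hl1 : Real.exp L0 ≤ Real.log X := (Real.le_log_iff_exp_le hX0).2 hX
  have hl0 : 0 < Real.log X := lt_of_lt_of_le (Real.exp_pos _) hl1
  have hl2 : L0 ≤ Real.log (Real.log X) := (Real.le_log_iff_exp_le hl0).2 hl1
  obtain ⟨L, hL⟩ : ∃ L : ℝ, L = Real.log (Real.log X) := ⟨_, rfl⟩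
  obtain ⟨a1, a2, -, -, a5, -, a7, -⟩ := hL0 _ hl2
  have hTd := h.hT
  have hwd := h.hw
  rw [← hL] at a1 a2 a5 a7 hTd hwd ⊢
  push_cast at a2 a5 a7
  have hLp : 0 < L := by linarith
  have hLone : 1 ≤ L := by linarith
  have hA' : (1 : ℝ) ≤ A := by exact_mod_cast hA
  have hE' : (1 : ℝ) ≤ E := by exact_mod_cast hE
  have hAL : 0 ≤ (A : ℝ) * L := by positivity
  have hT2 : (T : ℝ) ≤ 2 * A * L := by
    have h1 : (T : ℝ) < A * L + 1 := by rw [hTd]; exact Nat.ceil_lt_add_one hAL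
    nlinarith
  have hT0 : (0 : ℝ) ≤ T := Nat.cast_nonneg T
  have hM2 : (M : ℝ) ≤ 4 * E * T ^ 2 := by exact_mod_cast h.hM2
  have hT3 : (T : ℝ) ^ 2 ≤ (2 * A * L) ^ 2 := pow_le_pow_left₀ hT0 hT2 2
  have hM3 : (M : ℝ) ≤ 16 * E * A ^ 2 * L ^ 2 := by
    calc (M : ℝ) ≤ 4 * E * T ^ 2 := hM2
      _ ≤ 4 * E * (2 * A * L) ^ 2 := mul_le_mul_of_nonneg_left hT3 (by positivity)
      _ = _ := by ring
  have hM0 : (0 : ℝ) ≤ M := Nat.cast_nonneg M
  have hTM : (T : ℝ) * M ≤ 32 * E * A ^ 3 * L ^ 3 := by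
    calc (T : ℝ) * M ≤ (2 * A * L) * (16 * E * A ^ 2 * L ^ 2) :=
          mul_le_mul hT2 hM3 hM0 (by positivity)
      _ = _ := by ring
  have hTM0 : (0 : ℝ) ≤ T * M := mul_nonneg hT0 hM0
  have hL5 : L ≤ L ^ 5 := le_self_pow₀ hLone (by norm_num)
  have hw1 : (w : ℝ) ≤ L ^ 5 := by rw [hwd]; exact Nat.floor_le (by positivity)
  have hw2 : L ^ 5 - 1 < w := by rw [hwd]; exact Nat.sub_one_lt_floor _
  have hwp : (0 : ℝ) < w := by linarith
  have hlw : Real.log w ≤ 5 * Real.log L := by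
    have h1 := Real.log_le_log hwp hw1
    rw [Real.log_pow] at h1
    exact_mod_cast h1
  have hlL0 : 0 ≤ Real.log L := Real.log_nonneg hLone
  have hlL : Real.log L ≤ L := (Real.log_le_sub_one_of_pos hLp).trans (by linarith)
  obtain ⟨v1, v2⟩ := GroAux.logV w p0 V h.hV
  have hV2 : Real.log V ≤ 2 * L ^ 5 := by linarith
  constructor
  · have h1 : (T : ℝ) * M * Real.log w ≤ 160 * E * (A : ℝ) ^ 3 * L ^ 4 := by
      calc (T : ℝ) * M * Real.log w ≤ T * M * (5 * Real.log L) :=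
            mul_le_mul_of_nonneg_left hlw hTM0
        _ ≤ T * M * (5 * L) := mul_le_mul_of_nonneg_left (by linarith) hTM0
        _ ≤ (32 * E * A ^ 3 * L ^ 3) * (5 * L) := mul_le_mul_of_nonneg_right hTM (by positivity)
        _ = _ := by ring
    have h2 : 0 ≤ L ^ 5 := by positivity
    have h3 : 8 * L ^ 5 ≤ L ^ 6 := by
      calc 8 * L ^ 5 ≤ L * L ^ 5 := mul_le_mul_of_nonneg_right (by linarith) h2
        _ = L ^ 6 := by ring
    have h4 : 160 * (8 * (E : ℝ)) * (A : ℝ) ^ 3 * L ^ 4 =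
        8 * (160 * E * (A : ℝ) ^ 3 * L ^ 4) := by ring
    rw [h4] at a5
    linarith
  · calc (E : ℝ) * T ^ 2 * Real.log w ≤ E * T ^ 2 * (5 * Real.log L) :=
          mul_le_mul_of_nonneg_left hlw (by positivity)
      _ ≤ E * (2 * A * L) ^ 2 * (5 * Real.log L) := by
          apply mul_le_mul_of_nonneg_right _ (by positivity)
          exact mul_le_mul_of_nonneg_left hT3 (by positivity)
      _ = (20 * (8 * E) * (A : ℝ) ^ 2 * Real.log L) * L ^ 2 / 8 := by ring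
      _ ≤ L * L ^ 2 / 8 := by
          have := mul_le_mul_of_nonneg_right a7 (sq_nonneg L)
          linarith
      _ = L ^ 3 / 8 := by ring

end Pool.Agent.Lib.MP_9f2731_nt.CG.Tw
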