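import Pool.Agent.Lib.MP_9f2731_nt.CG.Tw.Spec

/-!
MP_9f2731_nt, CG/Tw, module InK: the multipliers `g m(x)`.
-/

namespace Pool.Agent.Lib.MP_9f2731_nt.CG.Tw

open Finset
open Pool.Agent.Lib.MP_9f2731_nt.GP
open Pool.Agent.Lib.MP_9f2731_nt.GP.Rel
open Pool.Agent.Lib.MP_9f2731_nt.GP.Asm (eb)
open Pool.Agent.Lib.MP_9f2731_nt.QL
open Pool.Agent.Lib.MP_9f2731_nt.QL.Aw

private theorem inK_cop {T M B : ℕ} (q : Fin T → ℕ) (hq : ∀ j, (q j).Prime) (hB : ∀ j, B < q j)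
    (x : Fin T → ZMod M) (g : ℕ) (h1 : 1 ≤ g) (h2 : g ≤ B) : Nat.Coprime (mltv q x) g := by
  unfold mltv
  apply Nat.Coprime.prod_left
  intro j _
  apply Nat.Coprime.pow_left
  exact (hq j).coprime_iff_not_dvd.2 (Nat.not_dvd_of_pos_of_lt h1 (lt_of_le_of_lt h2 (hB j)))

theorem pInK : MlVStmt → InKStmt := by
  intro hMl T B q hq hB hi M _
  obtain ⟨h3, h4, h5⟩ := hMl T q hq hi M
  have hpos : ∀ x : Fin T → ZMod M, 1 ≤ mltv q x := fun x =>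
    (h4 (∏ j, q j) (fun j => Finset.dvd_prod_of_mem q (Finset.mem_univ j)) x).1
  refine ⟨?_, ?_, ?_⟩
  · rintro ⟨a, x⟩ ⟨b, y⟩ ha1 ha2 hb1 hb2 hxy
    simp only at ha1 ha2 hb1 hb2 hxy
    have d1 : mltv q x ∣ mltv q y :=
      (inK_cop q hq hB x b hb1 hb2).dvd_of_dvd_mul_left (hxy ▸ Dvd.intro_left a rfl)
    have d2 : mltv q y ∣ mltv q x :=
      (inK_cop q hq hB y a ha1 ha2).dvd_of_dvd_mul_left (hxy ▸ Dvd.intro_left b rfl)
    have e1 : mltv q x = mltv q y := Nat.dvd_antisymm d1 d2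
    have e2 : x = y := h3 e1
    have e3 : a = b := by
      rw [e1] at hxy
      exact Nat.eq_of_mul_eq_mul_right (hpos y) hxy
    rw [e2, e3]
  · intro V hV hqV a h1 h2
    obtain ⟨k1, k2⟩ := h4 V hqV a.2
    refine ⟨Nat.one_le_iff_ne_zero.2 (mul_ne_zero (by omega) (by omega)), ?_⟩
    intro p hp hpd
    rcases (Nat.Prime.dvd_mul hp).1 hpd with h | h
    · exact hV p hp ((Nat.le_of_dvd h1 h).trans h2)
    · exact k2 p hp h
  · intro Q hQ a h1 h2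
    have h6 := h5 Q hQ a.2
    have h7 : (0 : ℝ) < a.1 := by exact_mod_cast h1
    have h8 : ((mltv q a.2 : ℕ) : ℝ) ≠ 0 := by
      have := hpos a.2
      exact_mod_cast (by omega : mltv q a.2 ≠ 0)
    have h9 : Real.log a.1 ≤ Real.log B := Real.log_le_log h7 (by exact_mod_cast h2)
    rw [Nat.cast_mul, Real.log_mul h7.ne' h8]
    linarith

end Pool.Agent.Lib.MP_9f2731_nt.CG.Tw
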