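import Pool.Agent.Lib.MP_9f2731_nt.CG.Tw.Spec

/-!
MP_9f2731_nt, CG/Tw, module MjK: the majorant.
-/

namespace Pool.Agent.Lib.MP_9f2731_nt.CG.Tw

open Finset
open Pool.Agent.Lib.MP_9f2731_nt.GP
open Pool.Agent.Lib.MP_9f2731_nt.GP.Rel
open Pool.Agent.Lib.MP_9f2731_nt.QL
open Pool.Agent.Lib.MP_9f2731_nt.QL.Aw
open Pool.Agent.Lib.MP_9f2731_nt.GP.Asm (eb)

private theorem mjK_Lam (l : ℕ) (R z : ℝ) (n : ℕ) (hR : 1 ≤ R) (hn : n ≠ 0) (hz : R ≤ z)
    (hr : Rgh z n) : Lam l R n = 1 := by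
  unfold Lam
  have h : n.divisors.filter (fun d : ℕ => (d : ℝ) ≤ R) = {1} := by
    ext d
    rw [Finset.mem_filter, Nat.mem_divisors, Finset.mem_singleton]
    constructor
    · rintro ⟨⟨h1, -⟩, h2⟩
      by_contra h3
      have h4 := Nat.minFac_prime h3
      have h5 : z < (d.minFac : ℝ) := hr _ h4 ((Nat.minFac_dvd d).trans h1)
      have h6 : d.minFac ≤ d := Nat.minFac_le (Nat.pos_of_ne_zero fun h0 => by
        rw [h0, zero_dvd_iff] at h1
        exact hn h1)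
      have h7 : (d.minFac : ℝ) ≤ d := by exact_mod_cast h6
      linarith
    · rintro rfl
      refine ⟨⟨one_dvd n, hn⟩, ?_⟩
      rw [Nat.cast_one]
      exact hR
  rw [h, Finset.sum_singleton]
  simp

/-- Module MjK. -/
theorem pMjK : MjKStmt := by
  classical
  intro 𝒢 V κ κ1 J T M q K' X b x hV hκ hκ1 hκ2 hX hq
  have hX1 : (1 : ℝ) ≤ (X : ℝ) := by exact_mod_cast hX
  have hR : (1 : ℝ) ≤ (X : ℝ) ^ κ := Real.one_le_rpow hX1 hκ.le
  have hlR : 0 ≤ Real.log ((X : ℝ) ^ κ) := Real.log_nonneg hR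
  have hlX : 0 ≤ Real.log (X : ℝ) := Real.log_nonneg hX1
  have hV0 : (0 : ℝ) < V := by exact_mod_cast hV
  have hφ0 : 0 ≤ (V.totient / V : ℝ) := by positivity
  have hφ1 : (V.totient / V : ℝ) ≤ 1 := by
    rw [div_le_one hV0]
    exact_mod_cast Nat.totient_le V
  have hc : 0 ≤ (V.totient / V : ℝ) * Real.log ((X : ℝ) ^ κ) * (3 / 4) := by positivity
  have hc1 : (V.totient / V : ℝ) * Real.log ((X : ℝ) ^ κ) * (3 / 4) ≤ Real.log X := by
    have h1 : Real.log ((X : ℝ) ^ κ) ≤ Real.log X := by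
      rw [Real.log_rpow (by linarith)]
      calc κ * Real.log X ≤ 1 * Real.log X := mul_le_mul_of_nonneg_right hκ1.le hlX
        _ = Real.log X := one_mul _
    have h2 : (V.totient / V : ℝ) * Real.log ((X : ℝ) ^ κ) ≤ 1 * Real.log X :=
      mul_le_mul hφ1 h1 hlR zero_le_one
    nlinarith
  have hnu1 : ∀ n : ℕ, 0 ≤ nuV V ((X : ℝ) ^ κ) n := by
    intro n
    unfold nuV
    exact mul_nonneg hc (sq_nonneg _)
  have hnu : 0 ≤ nuK 𝒢 V κ q X b x := by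
    unfold nuK
    exact prod_nonneg fun l _ => hnu1 _
  by_cases h : (∀ j, (x j).val + K' < M) ∧
      (∀ g ∈ 𝒢, Rgh ((X : ℝ) ^ κ1) (V * b * (g * mltv q x) + 1)) ∧
      (∀ g ∈ J, (V * b * (g * mltv q x) + 1).Prime)
  · have hf : fK 𝒢 V κ κ1 J q K' X b x =
        ((V.totient / V : ℝ) * Real.log ((X : ℝ) ^ κ) * (3 / 4)) ^ 𝒢.card := by
      unfold fK
      rw [if_pos h]
    rw [hf]
    refine ⟨pow_nonneg hc _, ?_, pow_le_pow_left₀ hc hc1 _⟩
    have hκκ : (X : ℝ) ^ κ ≤ (X : ℝ) ^ κ1 := Real.rpow_le_rpow_of_exponent_le hX1 hκ2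
    have hval : nuK 𝒢 V κ q X b x =
        ((V.totient / V : ℝ) * Real.log ((X : ℝ) ^ κ) * (3 / 4)) ^ 𝒢.card := by
      unfold nuK
      rw [prod_congr rfl (g := fun _ => (V.totient / V : ℝ) * Real.log ((X : ℝ) ^ κ) * (3 / 4))
        fun l hl => ?_]
      · rw [prod_const]
      · have hr := h.2.1 l hl
        unfold nuV
        rw [mjK_Lam 2 _ _ _ hR (Nat.succ_ne_zero _) hκκ hr, one_pow, mul_one]
    rw [hval]
  · have hf : fK 𝒢 V κ κ1 J q K' X b x = 0 := by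
      unfold fK
      rw [if_neg h]
    rw [hf]
    exact ⟨le_rfl, hnu, pow_nonneg hlX _⟩

end Pool.Agent.Lib.MP_9f2731_nt.CG.Tw
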