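import Pool.Agent.Lib.MP_9f2731_nt.CG.Tw.Spec
import Pool.Agent.Lib.MP_9f2731_nt.QL.Aw.NwA

/-!
MP_9f2731_nt, CG/Tw, module NgB: the wide condition in mean square for a general majorant (QL/Aw/NwB).
-/

namespace Pool.Agent.Lib.MP_9f2731_nt.CG.Tw

open Finset
open Pool.Agent.Lib.MP_9f2731_nt.GP
open Pool.Agent.Lib.MP_9f2731_nt.GP.Rel
open Pool.Agent.Lib.MP_9f2731_nt.GP.Asm (eb)
open Pool.Agent.Lib.MP_9f2731_nt.QL
open Pool.Agent.Lib.MP_9f2731_nt.QL.Aw

theorem pNgB (h1 : CwgStmt) (h2 : BoxStmt) : NgBStmt := by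
  intro k K J m θ X T M h _ ν hk hK hJ hMp hkM hh hhM hMean S hS
  have hM2 : 2 ≤ M := hMp.two_le
  have hbox := h2 T M h hhM
  have hkf : k ≤ k.factorial := Nat.self_le_factorial k
  have hne : (Xb T M h).Nonempty := by
    rw [← card_pos, hbox.1]
    positivity
  have : Nonempty (Xb T M h) := hne.to_subtype
  have hC := h1 k (Fin T → ZMod M) (Xb T M h) m K hk hne hK
    (fun n hn hn2 => hbox.2 hMp n hn (by omega))
  have hcard := GP.Asm.lf2_card S
  exact hMean (Fin T → ZMod M) (Fin k × Bool → Fin K → Xb T M h) (Fin k × (Fin k → Bool)) S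
    (fun p e x => e + frw m p.1 (pk p.2 x)) (by omega)
    (fun p hp p' hp' hne' => by
      rw [GP.Asm.lf2_av_prod (fun (e : Fin T → ZMod M) (x : Fin k × Bool → Fin K → Xb T M h) =>
        if e + frw m p.1 (pk p.2 x) = e + frw m p'.1 (pk p'.2 x) then (1 : ℝ) else 0)]
      refine cwg_le _ _ fun e => ?_
      simp only [add_right_inj]
      exact ((hC p p' (hS p hp) (hS p' hp')).1 hne').trans (nwa_box h2 hh hhM))
    (fun p hp p' hp' => by
      rw [GP.Asm.lf2_av_prod (fun (e : Fin T → ZMod M) (y : (Fin k × Bool → Fin K → Xb T M h) ×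
          (Fin k × Bool → Fin K → Xb T M h)) =>
        if e + frw m p.1 (pk p.2 y.1) = e + frw m p'.1 (pk p'.2 y.2) then (1 : ℝ) else 0)]
      refine cwg_le _ _ fun e => ?_
      simp only [add_right_inj]
      exact ((hC p p' (hS p hp) (hS p' hp')).2).trans (nwa_box h2 hh hhM))

end Pool.Agent.Lib.MP_9f2731_nt.CG.Tw
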