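import Pool.Agent.Lib.MP_9f2731_nt.CG.Tw.Spec
import Pool.Agent.Lib.MP_9f2731_nt.QL.Aw.NwC

/-!
MP_9f2731_nt, CG/Tw, module NgC: second moment of the mean of a general majorant (QL/Aw/NwC).
-/

namespace Pool.Agent.Lib.MP_9f2731_nt.CG.Tw

open Finset
open Pool.Agent.Lib.MP_9f2731_nt.GP
open Pool.Agent.Lib.MP_9f2731_nt.GP.Rel
open Pool.Agent.Lib.MP_9f2731_nt.GP.Asm (eb)
open Pool.Agent.Lib.MP_9f2731_nt.QL
open Pool.Agent.Lib.MP_9f2731_nt.QL.Aw

theorem pNgC : NgCStmt := by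
  intro J θ X T M _ ν hJ hM hX hθ hMean
  have h := hMean Unit (Fin T → ZMod M) Unit univ (fun _ _ x => x) (by simpa using hJ)
    (fun i _ i' _ hne => absurd (Subsingleton.elim i i') hne) (fun _ _ _ _ => by
      rw [GP.Asm.lf2_av_prod (fun (_ : Unit) (z : (Fin T → ZMod M) × (Fin T → ZMod M)) =>
        if z.1 = z.2 then (1 : ℝ) else 0), nwc_unit,
        GP.Asm.lf2_av_prod (fun (x y : Fin T → ZMod M) => if x = y then (1 : ℝ) else 0)]
      refine (cwg_le _ _ fun x => ?_).trans (nwc_card (T := T) hM)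
      exact cwg_one _ fun u u' hu hu' => hu.symm.trans hu')
  simp only [nwc_unit, univ_unique, prod_singleton] at h
  have hX' : (0 : ℝ) < X := Nat.cast_pos.2 hX
  unfold GP.Asm.eb at h ⊢
  rw [div_le_iff₀ hX'] at h ⊢
  have h2 : ∑ b ∈ Icc 1 X, (av (fun x : Fin T → ZMod M => ν b x)) ^ 2 ≤
      ∑ b ∈ Icc 1 X, (3 / 2 + 3 * (av (fun x : Fin T → ZMod M => ν b x) - 1) ^ 2) := by
    refine Finset.sum_le_sum fun b _ => ?_
    nlinarith [sq_nonneg (2 * (av (fun x : Fin T → ZMod M => ν b x)) - 3)]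
  rw [Finset.sum_add_distrib, ← Finset.mul_sum] at h2
  simp only [sum_const, Nat.card_Icc, Nat.add_sub_cancel, nsmul_eq_mul] at h2
  nlinarith

end Pool.Agent.Lib.MP_9f2731_nt.CG.Tw
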