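import Pool.Agent.Lib.MP_9f2731_nt.CG.Tw.SpecX

/-! MP_9f2731_nt, THEOREM CG, chapter Tw, module Ps1: pigeonhole. -/

namespace Pool.Agent.Lib.MP_9f2731_nt.CG.Tw

private lemma pig {α : Type*} (S : Finset α) (P : ℕ → α → Prop) (n0 : ℕ)
    (h : ∀ n : ℕ, n0 ≤ n → ∃ J ∈ S, P n J) :
    ∃ J ∈ S, ∀ N : ℕ, ∃ n : ℕ, N ≤ n ∧ P n J := by
  classical
  by_contra hcon
  push Not at hcon
  choose! f hf using hcon
  obtain ⟨J, hJ, hP⟩ := h (max n0 (S.sup f)) (le_max_left _ _)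
  exact hf J hJ _ ((Finset.le_sup hJ).trans (le_max_right _ _)) hP

theorem pPs1 : Ps1Stmt := by
  intro S Q h
  have h1 : ∀ L : ℕ, ∃ J ∈ S, ∀ k0 : ℕ, ∃ k : ℕ, k0 ≤ k ∧ Q L k J := fun L =>
    pig S (fun k J => Q L k J) 3 (fun k hk => h L k hk)
  exact pig S (fun L J => ∀ k0 : ℕ, ∃ k : ℕ, k0 ≤ k ∧ Q L k J) 0 (fun L _ => h1 L)

end Pool.Agent.Lib.MP_9f2731_nt.CG.Tw
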