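import Pool.Agent.Lib.MP_9f2731_nt.CG.Tw.SpecX

/-!
MP_9f2731_nt, THEOREM CG, chapter Tw: module Rgp (helper73), rough numbers have few prime factors.
-/

set_option autoImplicit false

namespace Pool.Agent.Lib.MP_9f2731_nt.CG.Tw

open Finset
open Pool.Agent.Lib.MP_9f2731_nt.GP
open Pool.Agent.Lib.MP_9f2731_nt.GP.Rel
open Pool.Agent.Lib.MP_9f2731_nt.GP.Asm (eb)
open Pool.Agent.Lib.MP_9f2731_nt.QL
open Pool.Agent.Lib.MP_9f2731_nt.QL.Aw

private theorem Rgp_list (z : ℝ) (hz : 0 ≤ z) (l : List ℕ) :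
    (∀ p ∈ l, z < (p : ℝ)) → z ^ l.length ≤ (l.prod : ℝ) := by
  induction l with
  | nil =>
    intro _
    simp
  | cons a l ih =>
    intro h
    rw [List.length_cons, List.prod_cons, pow_succ']
    rw [Nat.cast_mul]
    have h1 : z ≤ a := (h a List.mem_cons_self).le
    have h2 := ih fun p hp => h p (List.mem_cons_of_mem a hp)
    exact mul_le_mul h1 h2 (by positivity) (by positivity)

theorem pRgp : RgpStmt := by
  intro κ X n hκ hX hn hnX hR
  have hX1 : (1 : ℝ) < X := by exact_mod_cast (by omega : 1 < X)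
  have hX0 : (0 : ℝ) ≤ X := by linarith
  have h1 : ((X : ℝ) ^ κ) ^ n.primeFactorsList.length ≤ (n.primeFactorsList.prod : ℝ) := by
    refine Rgp_list _ (Real.rpow_nonneg hX0 κ) _ fun p hp => ?_
    have h2 := Nat.prime_of_mem_primeFactorsList hp
    exact hR p h2 (Nat.dvd_of_mem_primeFactorsList hp)
  rw [Nat.prod_primeFactorsList (by omega)] at h1
  have h2 : (n : ℝ) ≤ (X : ℝ) ^ (2 : ℝ) := by
    have h3 : (n : ℝ) ≤ (X : ℝ) ^ 2 := by exact_mod_cast hnX
    rwa [Real.rpow_two]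
  have h3 : (X : ℝ) ^ (κ * (n.primeFactorsList.length : ℝ)) ≤ (X : ℝ) ^ (2 : ℝ) := by
    rw [Real.rpow_mul hX0, Real.rpow_natCast]
    exact h1.trans h2
  rw [Real.rpow_le_rpow_left_iff hX1] at h3
  have h4 : (n.primeFactorsList.length : ℝ) ≤ 2 / κ := by
    rw [le_div_iff₀ hκ, mul_comm]
    exact h3
  exact_mod_cast h4.trans (Nat.le_ceil (2 / κ))

end Pool.Agent.Lib.MP_9f2731_nt.CG.Tw
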