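import Pool.Agent.Lib.MP_9f2731_nt.CG.Tw.SpecX

/-!
MP_9f2731_nt, CG/Tw, module ScX: existence of the scale data.
-/

namespace Pool.Agent.Lib.MP_9f2731_nt.CG.Tw

open Finset
open Pool.Agent.Lib.MP_9f2731_nt.GP
open Pool.Agent.Lib.MP_9f2731_nt.GP.Rel
open Pool.Agent.Lib.MP_9f2731_nt.QL
open Pool.Agent.Lib.MP_9f2731_nt.QL.Aw

namespace ScXAux

/-- enough primes larger than B -/
theorem prs (A B w0 : ℕ) (hA : 1 ≤ A) (L : ℝ) (hL1 : 2 ≤ L) (hLA : 32 * (A : ℝ) ^ 2 ≤ L)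
    (hLw : (w0 : ℝ) + 1 ≤ L) (hLB : (B : ℝ) + 3 ≤ L)
    (hP : ∀ w : ℕ, w0 ≤ w → Real.sqrt w ≤ (((range (w + 1)).filter Nat.Prime).card : ℝ))
    (T w p0 : ℕ) (hT : T = ⌈(A : ℝ) * L⌉₊) (hw : w = ⌊L ^ 5⌋₊) :
    T ≤ ((range (w + 1)).filter (fun p => (p.Prime ∧ p ≠ p0) ∧ B < p)).card := by
  have hL0 : 0 < L := by linarith
  have hLone : 1 ≤ L := by linarith
  have hA' : (1 : ℝ) ≤ A := by exact_mod_cast hA
  have hw2 : L ^ 5 - 1 < w := by rw [hw]; exact Nat.sub_one_lt_floor _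
  have hL5 : L ≤ L ^ 5 := le_self_pow₀ hLone (by norm_num)
  have hww : w0 ≤ w := by
    have : (w0 : ℝ) ≤ w := by linarith
    exact_mod_cast this
  have hAL : L ≤ A * L := by
    have := mul_le_mul_of_nonneg_right hA' hL0.le
    linarith
  have hT2 : (T : ℝ) + B + 2 ≤ 4 * A * L := by
    have h1 : (T : ℝ) < A * L + 1 := by rw [hT]; exact Nat.ceil_lt_add_one (by positivity)
    linarith
  have h2 : ((T : ℝ) + B + 2) ^ 2 ≤ w := by
    calc ((T : ℝ) + B + 2) ^ 2 ≤ (4 * A * L) ^ 2 := pow_le_pow_left₀ (by positivity) hT2 2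
      _ = (32 * (A : ℝ) ^ 2) * (L ^ 2 / 2) := by ring
      _ ≤ L * (L ^ 2 / 2) := mul_le_mul_of_nonneg_right hLA (by positivity)
      _ = L ^ 3 / 2 := by ring
      _ ≤ L ^ 5 / 2 := by
          have : L ^ 3 ≤ L ^ 5 := pow_le_pow_right₀ hLone (by norm_num)
          linarith
      _ ≤ w := by linarith
  have h3 : (T : ℝ) + B + 2 ≤ Real.sqrt w := Real.le_sqrt_of_sq_le h2
  have h4 : (T : ℝ) + B + 2 ≤ (((range (w + 1)).filter Nat.Prime).card : ℝ) :=
    h3.trans (hP w hww)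
  have h5 : T + B + 2 ≤ ((range (w + 1)).filter Nat.Prime).card := by exact_mod_cast h4
  have h6 : (((range (w + 1)).filter Nat.Prime).erase p0) \ range (B + 1) ⊆
      (range (w + 1)).filter (fun p => (p.Prime ∧ p ≠ p0) ∧ B < p) := by
    intro p hp
    rw [Finset.mem_sdiff, Finset.mem_erase, Finset.mem_filter, Finset.mem_range (n := B + 1)] at hp
    exact Finset.mem_filter.2 ⟨hp.1.2.1, ⟨hp.1.2.2, hp.1.1⟩, by omega⟩
  have h7 := Finset.card_le_card h6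
  have h8 := Finset.pred_card_le_card_erase (s := (range (w + 1)).filter Nat.Prime) (a := p0)
  have h9 := Finset.le_card_sdiff (range (B + 1)) (((range (w + 1)).filter Nat.Prime).erase p0)
  rw [Finset.card_range] at h9
  omega

/-- size of the moduli -/
theorem lgQ (B : ℕ) (ε l u : ℝ) (hε : 0 < ε) (hl : 0 < l)
    (hB : 2 * Real.log B / ε ≤ Real.log l) (hu : u ≤ l ^ (ε / 2)) (hB0 : 0 ≤ Real.log B) :
    Real.log B + u ≤ l ^ ε := by
  have h1 : 1 + Real.log B ≤ l ^ (ε / 2) := by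
    have h2 : Real.log B ≤ Real.log l * (ε / 2) := by
      rw [div_le_iff₀ hε] at hB
      linarith
    rw [Real.rpow_def_of_pos hl]
    have := Real.add_one_le_exp (Real.log l * (ε / 2))
    linarith
  have h3 : l ^ ε = l ^ (ε / 2) * l ^ (ε / 2) := by
    rw [← Real.rpow_add hl]
    congr 1
    ring
  rw [h3]
  nlinarith

end ScXAux

open ScXAux in
theorem pScX (hBvq : BvqStmt) (hPrc : PrcStmt) (hMlV : MlVStmt) (hGro : GroStmt) : ScXStmt := by
  intro m B W0 𝒢 ℋ κ1 c1 X1 hsub hℋ hMT A E w1 hA hE hBw hW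
  obtain ⟨ε1, hε1, hBv⟩ := hBvq
  obtain ⟨X3, hX3⟩ := hBv w1
  obtain ⟨w0, hw0⟩ := hPrc
  have hA' : (1 : ℝ) ≤ A := by exact_mod_cast hA
  obtain ⟨X2, hX2⟩ := hGro A E w1 1 (ε1 / 2) 1 (-1) hA hE (by linarith) one_pos (by linarith)
  obtain ⟨L0, hL0⟩ : ∃ L0 : ℝ, L0 = max (max 2 (max (32 * (A : ℝ) ^ 2) ((w0 : ℝ) + 1)))
    (max ((B : ℝ) + 3) (2 * Real.log B / ε1)) := ⟨_, rfl⟩
  refine ⟨max (max (max X1 X3) X2) (Real.exp (Real.exp L0)), ?_⟩
  intro X hX
  have hXa : X1 ≤ X :=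
    (((le_max_left _ _).trans (le_max_left _ _)).trans (le_max_left _ _)).trans hX
  have hXd : X3 ≤ X :=
    (((le_max_right _ _).trans (le_max_left _ _)).trans (le_max_left _ _)).trans hX
  have hXb : X2 ≤ X := ((le_max_right _ _).trans (le_max_left _ _)).trans hX
  have hXc : Real.exp (Real.exp L0) ≤ X := (le_max_right _ _).trans hX
  have hXp : (0 : ℝ) < X := lt_of_lt_of_le (Real.exp_pos _) hXc
  have hl1 : Real.exp L0 ≤ Real.log X := (Real.le_log_iff_exp_le hXp).2 hXc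
  have hl0 : 0 < Real.log X := lt_of_lt_of_le (Real.exp_pos _) hl1
  have hl2 : L0 ≤ Real.log (Real.log X) := (Real.le_log_iff_exp_le hl0).2 hl1
  have hLa : 2 ≤ Real.log (Real.log X) := by
    refine le_trans ?_ hl2
    rw [hL0]; exact (le_max_left _ _).trans (le_max_left _ _)
  have hLb : 32 * (A : ℝ) ^ 2 ≤ Real.log (Real.log X) := by
    refine le_trans ?_ hl2
    rw [hL0]; exact ((le_max_left _ _).trans (le_max_right _ _)).trans (le_max_left _ _)
  have hLc : (w0 : ℝ) + 1 ≤ Real.log (Real.log X) := by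
    refine le_trans ?_ hl2
    rw [hL0]; exact ((le_max_right _ _).trans (le_max_right _ _)).trans (le_max_left _ _)
  have hLd : (B : ℝ) + 3 ≤ Real.log (Real.log X) := by
    refine le_trans ?_ hl2
    rw [hL0]; exact (le_max_left _ _).trans (le_max_right _ _)
  have hLe : 2 * Real.log B / ε1 ≤ Real.log (Real.log X) := by
    refine le_trans ?_ hl2
    rw [hL0]; exact (le_max_right _ _).trans (le_max_right _ _)
  obtain ⟨p0, hp0, hp1, hq⟩ := hX3 X hXd
  obtain ⟨T, hT⟩ : ∃ T : ℕ, T = ⌈(A : ℝ) * Real.log (Real.log X)⌉₊ := ⟨_, rfl⟩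
  obtain ⟨w, hw⟩ : ∃ w : ℕ, w = ⌊(Real.log (Real.log X)) ^ 5⌋₊ := ⟨_, rfl⟩
  have hT0 : 0 < T := by
    rw [hT]
    exact Nat.ceil_pos.2 (by nlinarith)
  have hET : 2 * E * T ^ 2 ≠ 0 := by positivity
  obtain ⟨M, hM, hM1, hM2⟩ := Nat.exists_prime_lt_and_le_two_mul (2 * E * T ^ 2) hET
  obtain ⟨V, hV⟩ : ∃ V : ℕ, V = ∏ p ∈ (range (w + 1)).filter (fun p => p.Prime ∧ p ≠ p0), p :=
    ⟨_, rfl⟩
  have hcard := prs A B w0 hA _ hLa hLb hLc hLd hw0 T w p0 hT hw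
  obtain ⟨q, hqd⟩ : ∃ q : Fin T ↪o ℕ,
      ∀ j, q j ∈ (range (w + 1)).filter (fun p => (p.Prime ∧ p ≠ p0) ∧ B < p) :=
    ⟨Finset.orderEmbOfCardLe _ hcard, fun j => Finset.orderEmbOfCardLe_mem _ hcard j⟩
  have hscl : SclV A E w1 X T M w p0 V q := by
    refine ⟨hT, hM, hM1, by linarith, hw, hp0, hp1, hV, fun j => ?_, q.injective⟩
    have := hqd j
    rw [Finset.mem_filter, Finset.mem_range] at this
    exact ⟨this.2.1.1, by omega, this.2.1.2⟩
  have hsclK : SclK B A E w1 X T M w p0 V q := by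
    refine ⟨hscl, hBw, fun j => ?_⟩
    have := hqd j
    rw [Finset.mem_filter] at this
    exact this.2.2
  refine ⟨T, M, w, p0, V, q, hsclK, ?_⟩
  intro x
  have : NeZero M := ⟨hM.ne_zero⟩
  obtain ⟨-, -, -, -, -, v1, v2, -, v4, -, -, v5, v3, -⟩ := hX2 X hXb T M w p0 V q hscl
  obtain ⟨-, m2, m3⟩ := hMlV T q (fun j => (hscl.hq j).1) q.injective M
  have hsm := m2 V v2 x
  have hlm := m3 w (fun j => (hscl.hq j).2.1) x
  have hV0 : (0 : ℝ) < V := by exact_mod_cast v1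
  have hm0 : (0 : ℝ) < mltv q x := by exact_mod_cast hsm.1
  have hndV : ¬ p0 ∣ V := by
    intro h
    rw [hV] at h
    obtain ⟨p, hp, hpp⟩ := hp0.prime.exists_mem_finset_dvd h
    rw [Finset.mem_filter] at hp
    exact hp.2.2 ((Nat.prime_dvd_prime_iff_eq hp0 hp.2.1).1 hpp).symm
  have hnds : ¬ p0 ∣ mltv q x := by
    intro h
    rw [mltv] at h
    obtain ⟨j, _, hj⟩ := hp0.prime.exists_mem_finset_dvd h
    have h5 := hp0.dvd_of_dvd_pow hj
    exact (hscl.hq j).2.2 ((Nat.prime_dvd_prime_iff_eq hp0 (hscl.hq j).1).1 h5).symm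
  have h45 : (Real.log (Real.log X)) ^ 4 ≤ (Real.log (Real.log X)) ^ 5 :=
    pow_le_pow_right₀ (by linarith) (by norm_num)
  refine hMT X V p0 (mltv q x) hXa hp0 (lt_of_le_of_lt hW hp1) hndV v1 ?_ hsm (by linarith) ?_
  · intro p hp hpw hpp
    refine v4 p hp ?_ hpp
    rw [hw]
    exact Nat.le_floor (hpw.trans h45)
  · intro g hg
    obtain ⟨hg1, hgB⟩ := hℋ g (hsub hg)
    have hg0 : (0 : ℝ) < g := by exact_mod_cast hg1
    have hndg : ¬ p0 ∣ g := fun h => by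
      have := Nat.le_of_dvd hg1 h
      omega
    have hlg : Real.log g ≤ Real.log B := Real.log_le_log hg0 (by exact_mod_cast hgB)
    have hB1 : 0 ≤ Real.log B :=
      Real.log_nonneg (by exact_mod_cast hg1.trans hgB)
    refine hq (V * (g * mltv q x)) (Nat.mul_pos v1 (Nat.mul_pos hg1 hsm.1)) ?_ ?_
    · intro hdv
      rcases (hp0.dvd_mul).1 hdv with h | h
      · exact hndV h
      · rcases (hp0.dvd_mul).1 h with h | h
        · exact hndg h
        · exact hnds h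
    · have hlogQ : Real.log ((V * (g * mltv q x) : ℕ) : ℝ) ≤
          Real.log B + (Real.log V + T * M * Real.log w) := by
        rw [Nat.cast_mul, Nat.cast_mul, Real.log_mul hV0.ne' (mul_pos hg0 hm0).ne',
          Real.log_mul hg0.ne' hm0.ne']
        linarith
      exact hlogQ.trans (lgQ B ε1 (Real.log X) _ hε1 hl0 hLe v5 hB1)

end Pool.Agent.Lib.MP_9f2731_nt.CG.Tw
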