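import Pool.Agent.Lib.MP_9f2731_nt.CG.Tw.BsX
import Pool.Agent.Lib.MP_9f2731_nt.CG.Tw.DnX
import Pool.Agent.Lib.MP_9f2731_nt.CG.Tw.FiX
import Pool.Agent.Lib.MP_9f2731_nt.CG.Tw.Ft3
import Pool.Agent.Lib.MP_9f2731_nt.CG.Tw.Gdg
import Pool.Agent.Lib.MP_9f2731_nt.CG.Tw.GnK
import Pool.Agent.Lib.MP_9f2731_nt.CG.Tw.GrK
import Pool.Agent.Lib.MP_9f2731_nt.CG.Tw.InK
import Pool.Agent.Lib.MP_9f2731_nt.CG.Tw.MjK
import Pool.Agent.Lib.MP_9f2731_nt.CG.Tw.MsK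
import Pool.Agent.Lib.MP_9f2731_nt.CG.Tw.NgA
import Pool.Agent.Lib.MP_9f2731_nt.CG.Tw.NgB
import Pool.Agent.Lib.MP_9f2731_nt.CG.Tw.NgC
import Pool.Agent.Lib.MP_9f2731_nt.CG.Tw.Ps1
import Pool.Agent.Lib.MP_9f2731_nt.CG.Tw.Rgp
import Pool.Agent.Lib.MP_9f2731_nt.CG.Tw.ScX
import Pool.Agent.Lib.MP_9f2731_nt.CG.Tw.SgK
import Pool.Agent.Lib.MP_9f2731_nt.QL.Aw.All

/-!
MP_9f2731_nt, THEOREM CG, chapter Tw (helper78): assembly of the transference.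
-/

namespace Pool.Agent.Lib.MP_9f2731_nt.CG.Tw

open Pool.Agent.Lib.MP_9f2731_nt.GP
open Pool.Agent.Lib.MP_9f2731_nt.QL
open Pool.Agent.Lib.MP_9f2731_nt.QL.Aw (pMlV pPrc pGro pBox pShV pCwg pCng pDgv pPtV)

theorem twAll (hRel : RelWStmt) (hCor : CorVStmt) (hMom : MomVStmt) (hMt : MtStmt) (hBq : BvqStmt) :
    CgrStmt := by
  have aInK := pInK pMlV
  have aMsK := pMsK (pGnK hCor hMom aInK pGro (pSgK aInK pGro)) pGro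
  have aGdg := pGdg (pNgA pCng pBox) (pNgB pCwg pBox) GP.Asm.pSel
  have aBsX := pBsX hRel hMt aMsK pGro pGrK pMlV pBox (pShV pBox) pNgC aGdg GP.Asm.pSel
    (pScX hBq pPrc pMlV pGro) (pDnX pGro) pMjK pDgv pPtV
  exact pFiX aBsX pPs1 pRgp

end Pool.Agent.Lib.MP_9f2731_nt.CG.Tw
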