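import Pool.Agent.Lib.MP_9f2731_nt.CG.Tw.SpecX

/-!
MP_9f2731_nt, CG/Tw, module BsX: the main step (grids), adapted from QL/Aw/Bsv.
-/

namespace Pool.Agent.Lib.MP_9f2731_nt.CG.Tw

open Finset
open Pool.Agent.Lib.MP_9f2731_nt.GP
open Pool.Agent.Lib.MP_9f2731_nt.GP.Rel
open Pool.Agent.Lib.MP_9f2731_nt.GP.Asm (eb)
open Pool.Agent.Lib.MP_9f2731_nt.QL
open Pool.Agent.Lib.MP_9f2731_nt.QL.Aw

private theorem BsX_mono {α : Type} [Fintype α] (f g : α → ℝ) (h : ∀ x, f x ≤ g x) :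
    av f ≤ av g := by
  unfold av
  exact div_le_div_of_nonneg_right (sum_le_sum fun x _ => h x) (Nat.cast_nonneg _)

private theorem BsX_nonneg {α : Type} [Fintype α] (f : α → ℝ) (h : ∀ x, 0 ≤ f x) : 0 ≤ av f := by
  unfold av
  exact div_nonneg (sum_nonneg fun x _ => h x) (Nat.cast_nonneg _)

open Classical in
private theorem BsX_fb {𝒢 : Finset ℕ} {V : ℕ} {κ κ1 : ℝ} {J : Finset ℕ} {T M : ℕ}
    {q : Fin T → ℕ} {K' X b : ℕ} {x : Fin T → ZMod M} (h : fK 𝒢 V κ κ1 J q K' X b x ≠ 0) :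
    (∀ j, (x j).val + K' < M) ∧
      (∀ g ∈ 𝒢, Rgh ((X : ℝ) ^ κ1) (V * b * (g * mltv q x) + 1)) ∧
      (∀ g ∈ J, (V * b * (g * mltv q x) + 1).Prime) := by
  by_contra hcon
  apply h
  unfold fK
  rw [if_neg]
  exact fun h' => hcon ⟨h'.1, h'.2.1, h'.2.2⟩

open Classical in
theorem pBsX (h1 : RelWStmt) (h2 : MtStmt) (h3 : MsKStmt) (h4 : GroStmt) (h5 : GrKStmt)
    (h6 : MlVStmt) (h7 : BoxStmt) (h8 : ShVStmt) (h9 : NgCStmt) (h10 : GdgStmt)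
    (h11 : GP.Asm.SelStmt) (h12 : ScXStmt) (h13 : DnXStmt) (h14 : MjKStmt) (h15 : DgvStmt)
    (h16 : PtVStmt) : BsXStmt := by
  intro m
  obtain ⟨K, hMt0⟩ := h2 m
  refine ⟨K, fun 𝒢 ℋ hcard𝒢 hGH hℋ => ?_⟩
  obtain ⟨κ1, c1, W0, X9, hκ1, hc1, hMt1⟩ := hMt0 𝒢 ℋ hcard𝒢 hGH hℋ
  refine ⟨κ1, hκ1, ?_⟩
  obtain ⟨Bm, hBm⟩ : ∃ Bm : ℕ, ∀ g ∈ ℋ, 1 ≤ g ∧ g ≤ Bm :=
    ⟨ℋ.sup id, fun g hg => ⟨hℋ g hg, Finset.le_sup (f := id) hg⟩⟩
  have hMT : MtAt m 𝒢 ℋ κ1 c1 W0 X9 := by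
    intro X V p0 s a1 a2 a3 a4 a5 a6 a7 a8 a9
    refine (hMt1 X V p0 s a1 a2 a3 a4 a5 a6 a7 a8 a9).trans
      (Nat.cast_le.2 (Finset.card_le_card fun b hb => ?_))
    rw [mem_filter] at hb ⊢
    exact hb
  intro k hk
  have h2k : 1 ≤ 2 ^ k := Nat.one_le_two_pow
  have hkk : 1 ≤ k * 2 ^ k := Nat.one_le_iff_ne_zero.2 (Nat.mul_ne_zero (by omega) (by omega))
  obtain ⟨κ, A0, hκ0, hκlt, hκle, hMs⟩ := h3 (2 * (k * 2 ^ k)) Bm ℋ κ1 (by omega) hBm hκ1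
  obtain ⟨δ', hδ', hDn⟩ := h13 m 𝒢 ℋ κ κ1 c1 hκ0 hκ1 hc1
  obtain ⟨c, η, θr, n0, hc, hη, hθr, hRel⟩ := h1 k δ' (by omega) hδ'
  obtain ⟨B, hB2, hB⟩ : ∃ B : ℕ, 2 ≤ B ∧ (k.factorial : ℝ) ≤ θr * B := by
    refine ⟨⌈(k.factorial : ℝ) / θr⌉₊ + 2, by omega, ?_⟩
    have h := Nat.le_ceil ((k.factorial : ℝ) / θr)
    rw [div_le_iff₀ hθr] at h
    push_cast
    nlinarith
  obtain ⟨E, hE⟩ : ∃ E : ℕ, E = k * (n0 + 1) * B := ⟨_, rfl⟩
  have hE1 : 1 ≤ E := by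
    rw [hE]
    exact Nat.one_le_iff_ne_zero.2 (Nat.mul_ne_zero (Nat.mul_ne_zero (by omega) (by omega)) (by omega))
  obtain ⟨A, hA0, hA1, hA2⟩ : ∃ A : ℕ, A0 ≤ A ∧ 1 ≤ A ∧ 2 * (((ℋ.card * k : ℕ) : ℝ) + 1) ≤ A :=
    ⟨A0 + 2 * (ℋ.card * k + 1), by omega, by omega, by push_cast; linarith [Nat.cast_nonneg (α := ℝ) A0]⟩
  obtain ⟨nS, hnS⟩ : ∃ nS : ℝ, nS = 2 ^ (2 ^ k) + n0 * 2 ^ (k * 2 ^ k) := ⟨_, rfl⟩
  have hnS0 : 0 < nS := by
    rw [hnS]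
    positivity
  obtain ⟨θ, hθ, hθ1, hθ2⟩ : ∃ θ : ℝ, 0 < θ ∧ θ ≤ 1 / 6 ∧ nS * (θ / η ^ 2) ≤ δ' ^ 2 / 4 := by
    refine ⟨min (1 / 6) (η ^ 2 * δ' ^ 2 / (4 * nS)), by positivity, min_le_left _ _, ?_⟩
    have hm := min_le_right (1 / 6 : ℝ) (η ^ 2 * δ' ^ 2 / (4 * nS))
    rw [← mul_div_assoc, div_le_iff₀ (by positivity)]
    refine (mul_le_mul_of_nonneg_left hm hnS0.le).trans (le_of_eq ?_)
    field_simp
  obtain ⟨w0, hw0'⟩ := hMs θ hθ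
  obtain ⟨w1, hw11, hw12, hw13⟩ : ∃ w1 : ℕ, w0 ≤ w1 ∧ Bm ≤ w1 ∧ W0 ≤ w1 :=
    ⟨w0 + Bm + W0, by omega, by omega, by omega⟩
  obtain ⟨X1, hX1⟩ := hw0' w1 hw11 A E hA1 hA0 hE1
  obtain ⟨X2, hX2⟩ := h4 A E w1 (k.factorial + 2) 1 (c / 2) ((ℋ.card * k : ℕ) : ℝ) hA1 hE1 one_pos
    (by positivity) hA2
  obtain ⟨X3, hX3⟩ := h12 m Bm W0 𝒢 ℋ κ1 c1 X9 hGH hBm hMT A E w1 hA1 hE1 hw12 hw13
  obtain ⟨X4, hX4⟩ := hDn A E w1 hA1 hE1
  obtain ⟨X5, hX5⟩ := h5 A E w1 hA1 hE1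
  refine ⟨δ' ^ 2 / 4, max X1 (max X2 (max X3 (max X4 (max X5 3)))), by positivity, fun X hX => ?_⟩
  rw [max_le_iff, max_le_iff, max_le_iff, max_le_iff, max_le_iff] at hX
  obtain ⟨a1, a2, a3, a4, a5, a6⟩ := hX
  have hX3' : 3 ≤ X := by exact_mod_cast a6
  obtain ⟨T, M, w, p0, V, q, hSK, hcnt⟩ := hX3 X a3
  have hS := hSK.hS
  have : NeZero M := ⟨hS.hM.ne_zero⟩
  obtain ⟨-, -, g3, -, g5, g6, g7, -, -, -, -, -, -, -, g15⟩ := hX2 X a2 T M w p0 V q hS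
  obtain ⟨r1, r2⟩ := hX5 X a5 T M w p0 V q hS
  have hMean := hX1 X a1 T M w p0 V q hSK
  have hfac : 1 ≤ k.factorial := Nat.succ_le_of_lt (Nat.factorial_pos k)
  have hT1 : 1 ≤ T := by omega
  obtain ⟨h, hh⟩ : ∃ h : ℕ, h = B * T := ⟨_, rfl⟩
  obtain ⟨K', hK'⟩ : ∃ K' : ℕ, K' = E * T := ⟨_, rfl⟩
  have hKh : K' = k * (n0 + 1) * h := by rw [hK', hE, hh]; ring
  have hh2 : 2 ≤ h := by
    rw [hh]
    nlinarith
  have hhK : h ≤ K' := by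
    rw [hKh]
    have : 1 ≤ k * (n0 + 1) := Nat.one_le_iff_ne_zero.2 (Nat.mul_ne_zero (by omega) (by omega))
    nlinarith
  have hTM : E * T * T < M := by
    have h20 := hS.hM1
    have h21 : 2 * E * T ^ 2 = 2 * (E * T * T) := by ring
    omega
  have hKM : K' < M := by
    rw [hK']
    refine lt_of_le_of_lt ?_ hTM
    nlinarith [Nat.zero_le (E * T)]
  have hhM : h ≤ M := by omega
  have hTM' : T < M := by
    refine lt_of_le_of_lt ?_ hTM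
    have h22 : 1 ≤ E * T := Nat.one_le_iff_ne_zero.2 (Nat.mul_ne_zero (by omega) (by omega))
    nlinarith
  have hfM : k.factorial < M := by omega
  have hX0 : (0 : ℝ) < X := Nat.cast_pos.2 (by omega)
  have hq : ∀ j, (q j).Prime := fun j => (hS.hq j).1
  have hqw : ∀ j, q j ≤ w := fun j => (hS.hq j).2.1
  obtain ⟨m1, m2, m3⟩ := h6 T q hq hS.hqi M
  have hw0 : 0 ≤ Real.log (w : ℝ) := Real.log_natCast_nonneg w
  have hVpos : (0 : ℝ) < V := Nat.cast_pos.2 (by omega)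
  have hlogV : 0 ≤ Real.log (V : ℝ) := Real.log_natCast_nonneg V
  have hlogX : 0 < Real.log X := Real.log_pos (by exact_mod_cast (by omega : 1 < X))
  obtain ⟨J, hJ1, hJ2, hden⟩ := hX4 X a4 T M w p0 V q hS hcnt
  refine ⟨J, hJ1, hJ2, ?_⟩
  have hmaj := fun (b : ℕ) (x : Fin T → ZMod M) =>
    h14 ℋ V κ κ1 J T M q K' X b x g6 hκ0 hκlt hκle (by omega) hq
  rw [← hK'] at hden
  have hsel := h11.1 X (fun b => av (fun x : Fin T → ZMod M => fK ℋ V κ κ1 J q K' X b x))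
    (fun b => av (fun x : Fin T → ZMod M => nuK ℋ V κ q X b x)) δ' (by omega) hδ'
    (fun b => ⟨BsX_nonneg _ fun x => (hmaj b x).1, BsX_mono _ _ fun x => (hmaj b x).2.1⟩) hden
    (h9 _ θ X T M (fun b x => nuK ℋ V κ q X b x) (by omega) (by omega) (by omega) hθ1 hMean)
  have hgd := h10 k n0 _ θ η X T M h (fun b x => nuK ℋ V κ q X b x) (by omega) le_rfl hS.hM hfM hh2
    hhM (by omega) hη hθ.le hMean
  rw [← hnS] at hgd
  have hgd' : (((Icc 1 X).filter (fun b => ¬ (NLF k k.factorial η (Xb T M 2)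
      (fun x => nuK ℋ V κ q X b x) ∧ WLF k n0 η (Xb T M h) (fun x => nuK ℋ V κ q X b x)))).card : ℝ) ≤
      δ' ^ 2 / 4 * X := hgd.trans (mul_le_mul_of_nonneg_right hθ2 hX0.le)
  -- the good b
  have hsub : (Icc 1 X).filter (fun b => δ' ≤ av (fun x : Fin T → ZMod M =>
      fK ℋ V κ κ1 J q K' X b x)) ⊆
      ((Icc 1 X).filter (fun b => ∃ s r : ℕ, 1 ≤ s ∧
        Real.log s ≤ (Real.log (Real.log X)) ^ 6 / 2 ∧ 2 ≤ r ∧
        Real.log r ≤ (Real.log (Real.log X)) ^ 3 / 8 ∧ Grd J ℋ ((X : ℝ) ^ κ1) k r (b * s))) ∪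
      (Icc 1 X).filter (fun b => ¬ (NLF k k.factorial η (Xb T M 2)
        (fun x => nuK ℋ V κ q X b x) ∧ WLF k n0 η (Xb T M h) (fun x => nuK ℋ V κ q X b x))) := by
    intro b hb
    rw [mem_filter] at hb
    obtain ⟨hbX, hav⟩ := hb
    by_cases hgood : NLF k k.factorial η (Xb T M 2) (fun x => nuK ℋ V κ q X b x) ∧
        WLF k n0 η (Xb T M h) (fun x => nuK ℋ V κ q X b x)
    swap
    · exact mem_union_right _ (mem_filter.2 ⟨hbX, hgood⟩)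
    refine mem_union_left _ (mem_filter.2 ⟨hbX, ?_⟩)
    have hXcard : (Xb T M h).card = h ^ T := (h7 T M h hhM).1
    have hYcard : (Xb T M 2).card = 2 ^ T := (h7 T M 2 (by omega)).1
    have hXne : (Xb T M h).Nonempty := by
      rw [← card_pos, hXcard]
      positivity
    have hYne : (Xb T M 2).Nonempty := by
      rw [← card_pos, hYcard]
      positivity
    have hShf : Shf k.factorial θr (Xb T M h) (Xb T M 2) := by
      refine h8 T M h k.factorial θr (by omega) hhM ?_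
      rw [hh]
      push_cast
      have : (0 : ℝ) ≤ T := Nat.cast_nonneg T
      nlinarith
    have hsum : δ' * (Fintype.card (Fin T → ZMod M) : ℝ) ≤
        ∑ x : Fin T → ZMod M, fK ℋ V κ κ1 J q K' X b x := by
      have h10 : δ' ≤ (∑ x : Fin T → ZMod M, fK ℋ V κ κ1 J q K' X b x) /
        (Fintype.card (Fin T → ZMod M) : ℝ) := hav
      rwa [le_div_iff₀ (Nat.cast_pos.2 Fintype.card_pos)] at h10
    obtain ⟨m', hm', hav2⟩ := hRel (Fin T → ZMod M) (Xb T M h) (Xb T M 2) hXne hYne hShf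
      (fun x => nuK ℋ V κ q X b x) (fun x => fK ℋ V κ κ1 J q K' X b x)
      (fun x => ⟨(hmaj b x).1, (hmaj b x).2.1⟩) hgood.1 hgood.2 hsum
    have hF : ((Real.log X) ^ ℋ.card) ^ k / ((Xb T M h).card : ℝ) < c := by
      rw [hXcard, ← pow_mul]
      have h30 : (2 : ℝ) ^ T ≤ ((h ^ T : ℕ) : ℝ) := by
        push_cast
        exact pow_le_pow_left₀ (by norm_num) (by exact_mod_cast hh2) T
      have h31 : (Real.log X) ^ (ℋ.card * k) / ((h ^ T : ℕ) : ℝ) ≤ (Real.log X) ^ (ℋ.card * k) / 2 ^ T :=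
        div_le_div_of_nonneg_left (by positivity) (by positivity) h30
      have h32 : (Real.log X) ^ (ℋ.card * k) / 2 ^ T =
          (Real.log X) ^ ((ℋ.card * k : ℕ) : ℝ) * (1 / 2 : ℝ) ^ T := by
        rw [Real.rpow_natCast, one_div, inv_pow, div_eq_mul_inv]
      rw [h32] at h31
      linarith
    obtain ⟨e, x, hd, hne⟩ := h15 k m' (k * n0 + 1) (Fin T → ZMod M) (Xb T M h)
      (fun x => fK ℋ V κ κ1 J q K' X b x) ((Real.log X) ^ ℋ.card) c (by omega) (by omega) hXne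
      (fun x => ⟨(hmaj b x).1, (hmaj b x).2.2⟩) hF hav2
    have hkm : k * m' + 1 ≤ k * n0 + 1 := by nlinarith
    have hkm' : k * (m' + 1) * h ≤ K' := by
      rw [hKh]
      exact Nat.mul_le_mul_right h (Nat.mul_le_mul_left k (by omega))
    obtain ⟨j0, r, hr2, hrl, hpt⟩ := h16 T M h k m' (k * n0 + 1) K' q hq (by omega) hkm (by omega)
      hkm' hKM e x hd fun j t => (BsX_fb (hne j)).1 t
    have hm1 : 1 ≤ mltv q (e + frw m' j0 x) := (m2 V g7 _).1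
    have hmpos : (0 : ℝ) < (mltv q (e + frw m' j0 x) : ℕ) := Nat.cast_pos.2 (by omega)
    refine ⟨V * mltv q (e + frw m' j0 x), r, ?_, ?_, hr2, ?_, ?_⟩
    · exact Nat.one_le_iff_ne_zero.2 (Nat.mul_ne_zero (by omega) (by omega))
    · rw [Nat.cast_mul, Real.log_mul hVpos.ne' hmpos.ne']
      have := m3 w hqw (e + frw m' j0 x)
      linarith
    · refine (hrl w hqw).trans ?_
      refine le_trans (le_of_eq ?_) r2
      rw [hK']
      push_cast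
      ring
    · intro i hi
      obtain ⟨j, hj⟩ := hpt i hi
      obtain ⟨-, hf2, hf3⟩ := BsX_fb (hne j)
      have e1 : ∀ g : ℕ, g * r ^ i * (b * (V * mltv q (e + frw m' j0 x))) + 1 =
          V * b * (g * mltv q (e + frw m' j x)) + 1 := by
        intro g
        rw [hj]
        ring
      constructor
      · intro g hg
        rw [e1]
        exact hf3 g hg
      · intro g hg
        rw [e1]
        exact hf2 g hg
  have hcard := (card_le_card hsub).trans (card_union_le _ _)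
  have hcard' : (((Icc 1 X).filter (fun b => δ' ≤ av (fun x : Fin T → ZMod M =>
      fK ℋ V κ κ1 J q K' X b x))).card : ℝ) ≤
      (((Icc 1 X).filter (fun b => ∃ s r : ℕ, 1 ≤ s ∧
        Real.log s ≤ (Real.log (Real.log X)) ^ 6 / 2 ∧ 2 ≤ r ∧
        Real.log r ≤ (Real.log (Real.log X)) ^ 3 / 8 ∧
        Grd J ℋ ((X : ℝ) ^ κ1) k r (b * s))).card : ℝ) +
      (((Icc 1 X).filter (fun b => ¬ (NLF k k.factorial η (Xb T M 2)
        (fun x => nuK ℋ V κ q X b x) ∧ WLF k n0 η (Xb T M h)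
          (fun x => nuK ℋ V κ q X b x)))).card : ℝ) := by
    exact_mod_cast hcard
  have hsel' : δ' ^ 2 / 2 * X ≤ (((Icc 1 X).filter (fun b => δ' ≤ av (fun x : Fin T → ZMod M =>
      fK ℋ V κ κ1 J q K' X b x))).card : ℝ) := by
    refine hsel.trans (le_of_eq ?_)
    congr 2
  linarith

end Pool.Agent.Lib.MP_9f2731_nt.CG.Tw
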