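import Pool.Agent.Lib.MP_9f2731_nt.CG.Defs
import Pool.Agent.Lib.MP_9f2731_nt.QL.Aw.Spec

/-!
MP_9f2731_nt, THEOREM CG, chapter Tw (architect helper78): transference with the product of K majorants,
RelWStmt → CorVStmt → MomVStmt → MtStmt → BvqStmt → GridXStmt → CgrStmt → Cg2Stmt (see Tw/SpecX.lean for the second
part; Defs v2 of helper92). Rules: a module `X.lean` in this
directory starts with `import Pool.Agent.Lib.MP_9f2731_nt.CG.Tw.Spec`, `namespace Pool.Agent.Lib.MP_9f2731_nt.CG.Tw`, `open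
Finset`, `open Pool.Agent.Lib.MP_9f2731_nt.GP Pool.Agent.Lib.MP_9f2731_nt.GP.Rel Pool.Agent.Lib.MP_9f2731_nt.QL
Pool.Agent.Lib.MP_9f2731_nt.QL.Aw` and proves the theorem `pX`. Statements under Uses are hypotheses, in this order. All
modules are independent. Most modules are adaptations of the proved file of QL/Aw which is named (copy it and adapt; you
may also import it). eb is GP.Asm.eb (mean over b in [1, X]). Notation of the proofs: L = log log X, G = Fin T → ZMod M,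
R = X^κ, m(x) = mltv q x, 𝒢 = the finite set of multipliers, all in [1, B].
-/

namespace Pool.Agent.Lib.MP_9f2731_nt.CG.Tw

open Finset
open Pool.Agent.Lib.MP_9f2731_nt.GP
open Pool.Agent.Lib.MP_9f2731_nt.GP.Rel
open Pool.Agent.Lib.MP_9f2731_nt.GP.Asm (eb)
open Pool.Agent.Lib.MP_9f2731_nt.QL
open Pool.Agent.Lib.MP_9f2731_nt.QL.Aw (mltv Xb SclV MlVStmt PrcStmt GroStmt BoxStmt ShVStmt CwgStmt CngStmt DgvStmt
  PtVStmt)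

/-- the scale data, with generators larger than B; all primes ≤ B are among the small primes -/
structure SclK (B A E w1 X T M w p0 V : ℕ) (q : Fin T → ℕ) : Prop where
  hS : SclV A E w1 X T M w p0 V q
  hB : B ≤ w1
  hq2 : ∀ j, B < q j

/-- product of the majorants belonging to `g m(x)`, g ∈ 𝒢 -/
noncomputable def nuK (𝒢 : Finset ℕ) (V : ℕ) (κ : ℝ) {T M : ℕ} (q : Fin T → ℕ) (X b : ℕ)
    (x : Fin T → ZMod M) : ℝ :=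
  ∏ g ∈ 𝒢, nuV V ((X : ℝ) ^ κ) (V * b * (g * mltv q x) + 1)

open Classical in
/-- the normalized indicator of the points with distance K' from the boundary for which all numbers are X^κ1-rough and
the numbers with multiplier in J are prime -/
noncomputable def fK (𝒢 : Finset ℕ) (V : ℕ) (κ κ1 : ℝ) (J : Finset ℕ) {T M : ℕ} (q : Fin T → ℕ) (K' X b : ℕ)
    (x : Fin T → ZMod M) : ℝ :=
  if (∀ j, (x j).val + K' < M) ∧
      (∀ g ∈ 𝒢, Rgh ((X : ℝ) ^ κ1) (V * b * (g * mltv q x) + 1)) ∧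
      (∀ g ∈ J, (V * b * (g * mltv q x) + 1).Prime) then
    ((V.totient / V : ℝ) * Real.log ((X : ℝ) ^ κ) * (3 / 4)) ^ 𝒢.card
  else 0

/-- mean values over families with few coincidences are near 1 in mean square -/
def MeanG (J : ℕ) (θ : ℝ) (X M T : ℕ) (ν : ℕ → (Fin T → ZMod M) → ℝ) : Prop :=
  ∀ (W Z ι : Type) [Fintype W] [Nonempty W] [Fintype Z] [Nonempty Z] [DecidableEq ι] (I : Finset ι)
    (ψ : ι → W → Z → (Fin T → ZMod M)), 2 * I.card ≤ J →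
    (∀ i ∈ I, ∀ i' ∈ I, i ≠ i' →
      av (fun y : W × Z => if ψ i y.1 y.2 = ψ i' y.1 y.2 then (1 : ℝ) else 0) ≤ (1 / 2 : ℝ) ^ T) →
    (∀ i ∈ I, ∀ i' ∈ I,
      av (fun y : W × Z × Z => if ψ i y.1 y.2.1 = ψ i' y.1 y.2.2 then (1 : ℝ) else 0) ≤ (1 / 2 : ℝ) ^ T) →
    eb X (fun b => av (fun e : W => (av (fun z : Z => ∏ i ∈ I, ν b (ψ i e z)) - 1) ^ 2)) ≤ θ

/-! ### Sizes -/

/-- Module GrK (compare QL/Aw/Gro.lean). Uses: nothing. Proof. L → ∞ as X → ∞. For L large: A L ≤ T ≤ A L + 1 ≤ 2 A L,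
M ≤ 4 E T^2 ≤ 16 E A^2 L^2, 1 ≤ w ≤ L^5, 0 ≤ log w ≤ 5 log L. V is a product of distinct primes ≤ w, so V divides primorial
w ≤ 4^w and log V ≤ 2 w ≤ 2 L^5 (V ≥ 1). T M ≤ 32 E A^3 L^3. So log V + T M log w ≤ 2 L^5 + 160 E A^3 L^3 log L ≤ L^6/2 and
E T^2 log w ≤ 20 E A^2 L^2 log L ≤ L^3/8 for L large (log L ≤ ε L for L large). -/
def GrKStmt : Prop :=
  ∀ A E w1 : ℕ, 1 ≤ A → 1 ≤ E → ∃ X0 : ℝ, ∀ X : ℕ, X0 ≤ X → ∀ (T M w p0 V : ℕ) (q : Fin T → ℕ),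
    SclV A E w1 X T M w p0 V q →
    Real.log V + T * M * Real.log w ≤ (Real.log (Real.log X)) ^ 6 / 2 ∧
    (E : ℝ) * T ^ 2 * Real.log w ≤ (Real.log (Real.log X)) ^ 3 / 8

/-- Module InK. Uses: MlV. Proof. m(x) is a product of powers of the primes q j > B, so it is prime to every g ∈ [1, B]. g m
= g' m': m divides g' m' and is prime to g', so m ∣ m'; by symmetry m = m' (m, m' ≥ 1), then g = g' and x = x' by MlV
(injective). SmV: g m ≥ 1, a prime factor of g m is ≤ g ≤ B or a prime factor of m (MlV, second part). Logarithm: log(g m) =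
log g + log m, MlV third part. -/
def InKStmt : Prop :=
  ∀ (T B : ℕ) (q : Fin T → ℕ), (∀ j, (q j).Prime) → (∀ j, B < q j) → Function.Injective q →
    ∀ (M : ℕ) [NeZero M],
    (∀ a a' : ℕ × (Fin T → ZMod M), 1 ≤ a.1 → a.1 ≤ B → 1 ≤ a'.1 → a'.1 ≤ B →
      a.1 * mltv q a.2 = a'.1 * mltv q a'.2 → a = a') ∧
    (∀ V : ℕ, (∀ p : ℕ, p.Prime → p ≤ B → p ∣ V) → (∀ j, q j ∣ V) → ∀ a : ℕ × (Fin T → ZMod M), 1 ≤ a.1 →
      a.1 ≤ B → SmV V (a.1 * mltv q a.2)) ∧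
    ∀ Q : ℕ, (∀ j, q j ≤ Q) → ∀ a : ℕ × (Fin T → ZMod M), 1 ≤ a.1 → a.1 ≤ B →
      Real.log ((a.1 * mltv q a.2 : ℕ) : ℝ) ≤ Real.log B + T * (M : ℝ) * Real.log Q

/-- Module SgK (the singular factor is small; compare QL/Aw/SgV.lean). Uses: InK, Gro. Proof. η ≤ 1 WLOG. w1 = max (B + 2)
(⌈4 C/η⌉ + 1). Gro with K0 = B + 2, ε = 1, B = -1 (the real parameter) and η replaced by η' = η/(8 C (J^2+1)). By Gro all
primes ≤ B ≤ w1 ≤ w2 and all q j divide V. Let S' = the image of S, card S' ≤ J. Δ = Del S' is a product of at most J^2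
positive differences, each at most max m, so log Δ ≤ J^2 (log B + T M log w) (InK with Q = w). A prime p ∣ Δ which does not
divide V is p0 or > w. The number of the p ∣ Δ with p > w is at most log Δ/log w ≤ J^2 (1 + T M) ≤ 2 J^2 T M (log B ≤ log w,
1 ≤ T M; w ≥ 2). So the sum of C/p over the p ∣ Δ not dividing V is ≤ C/w2 + 2 C J^2 T M/w ≤ η/4 + η/4 (Gro: T M ≤ η' w), and
∏ (1 + C/p) ≤ exp(∑ C/p) ≤ exp(η/2) ≤ 1 + η. -/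
def SgKStmt : Prop :=
  ∀ (J B : ℕ) (C η : ℝ), 0 < C → 0 < η → ∃ w1 : ℕ, B + 2 ≤ w1 ∧ ∀ A E : ℕ, 1 ≤ A → 1 ≤ E →
    ∀ w2 : ℕ, w1 ≤ w2 → ∃ X0 : ℝ, ∀ X : ℕ, X0 ≤ X → ∀ (T M w p0 V : ℕ) [NeZero M] (q : Fin T → ℕ),
    SclK B A E w2 X T M w p0 V q →
    ∀ S : Finset (ℕ × (Fin T → ZMod M)), S.card ≤ J → (∀ a ∈ S, 1 ≤ a.1 ∧ a.1 ≤ B) →
      singV C V (Del (S.image (fun a => a.1 * mltv q a.2))) - 1 ≤ η

/-! ### Mean values over b -/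

/-- Module GnK (compare QL/Aw/GnV.lean). Uses: CorVStmt, MomVStmt, InK, Gro, SgK. Proof. K = card 𝒢, N = max (J K) ⌈1/(2
κ1)⌉ ≥ 1. κ, C1 from CorV for N: 2 N κ ≤ 1, so κ ≤ 1/2 and κ ≤ 1/(2N) ≤ κ1. C3 from MomV for N, C2 = C3 + 1. Given θ: w1 =
the maximum of B + 2, ⌈4 C1/θ⌉ and the w1 of SgK for (J K, B, C1, θ/(4 C1)); let w2 ≥ w1. eb and av commute, so it is enough
to prove for every y: |eb ∏_{i ∈ I} nuK (ψ i y) - 1| ≤ θ + L'^C2 ∑ ∑ [ψ i y = ψ i' y], L' = log X. The product is a product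
over the pairs (g, i) ∈ 𝒢 ×ˢ I. (a) If ψ · y is injective on I, then (g, i) ↦ g m(ψ i y) is injective (InK), S = the image
(card ≤ J K ≤ N) of a set of pairs, the product is ∏_{m ∈ S} nuV(V b m + 1), SmV V m by InK and Gro (all primes ≤ B ≤ w2
divide V). CorV with w = w2 (all primes ≤ w2 divide V): ≤ C1 ((1 + log V)^6/log X + 1/w2 + singV - 1) ≤ θ/4 + θ/4 + θ/4
(Gro with η = min 1 (θ/(4 C1))). (b) Otherwise the double sum is ≥ 1. AM-GM: a product of n factors nu_i is ≤ (1/n) ∑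
nu_i^n, n = K card I ≤ N, nu^n ≤ 1 + nu^N (n = 0: the product is 1), so eb ∏ ≤ 1 + C3 L'^C3 by MomV, and |eb ∏ - 1| ≤ 2 +
C3 L'^C3 ≤ L'^C2 for X large. -/
def GnKStmt : Prop :=
  ∀ (J B : ℕ) (𝒢 : Finset ℕ) (κ1 : ℝ), 1 ≤ J → (∀ g ∈ 𝒢, 1 ≤ g ∧ g ≤ B) → 0 < κ1 →
    ∃ κ C2 : ℝ, 0 < κ ∧ κ < 1 ∧ κ ≤ κ1 ∧ 0 < C2 ∧
    ∀ θ : ℝ, 0 < θ → ∃ w1 : ℕ, ∀ w2 : ℕ, w1 ≤ w2 → ∀ A E : ℕ, 1 ≤ A → 1 ≤ E →
    ∃ X0 : ℝ, ∀ X : ℕ, X0 ≤ X → ∀ (T M w p0 V : ℕ) [NeZero M] (q : Fin T → ℕ), SclK B A E w2 X T M w p0 V q →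
    ∀ (Y : Type) [Fintype Y] [Nonempty Y] (ι : Type) [DecidableEq ι] (I : Finset ι)
      (ψ : ι → Y → (Fin T → ZMod M)), I.card ≤ J →
    |eb X (fun b => av (fun y => ∏ i ∈ I, nuK 𝒢 V κ q X b (ψ i y))) - 1| ≤
      θ + (Real.log X) ^ C2 *
        ∑ i ∈ I, ∑ i' ∈ I.erase i, av (fun y => if ψ i y = ψ i' y then (1 : ℝ) else 0)

/-- Module MsK (compare QL/Aw/MsV.lean). Uses: GnK, Gro. Proof. κ, C2 from GnK, A0 = ⌈2 (C2 + 1)⌉₊ + 1. GnK with θ/8. (1) Y =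
W × Z, I, ψ i (e,z): |M1 - 1| ≤ θ/8 + L'^C2 J^2 (1/2)^T ≤ θ/4 (Gro with B = C2, η = θ/(8 J^2)). (2) Y = W × Z × Z, index
type Bool × ι, I' = univ ×ˢ I (card ≤ J), ψ (false,i) y = ψ i y.1 y.2.1, ψ (true,i) y = ψ i y.1 y.2.2: |M2 - 1| ≤ θ/4. eb
av_e (F_b(e) - 1)^2 = M2 - 2 M1 + 1 ≤ 3θ/4. -/
def MsKStmt : Prop :=
  ∀ (J B : ℕ) (𝒢 : Finset ℕ) (κ1 : ℝ), 1 ≤ J → (∀ g ∈ 𝒢, 1 ≤ g ∧ g ≤ B) → 0 < κ1 →
    ∃ (κ : ℝ) (A0 : ℕ), 0 < κ ∧ κ < 1 ∧ κ ≤ κ1 ∧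
    ∀ θ : ℝ, 0 < θ → ∃ w1 : ℕ, ∀ w2 : ℕ, w1 ≤ w2 → ∀ A E : ℕ, 1 ≤ A → A0 ≤ A → 1 ≤ E → ∃ X0 : ℝ,
    ∀ X : ℕ, X0 ≤ X → ∀ (T M w p0 V : ℕ) [NeZero M] (q : Fin T → ℕ),
    SclK B A E w2 X T M w p0 V q → MeanG J θ X M T (fun b x => nuK 𝒢 V κ q X b x)

/-! ### Linear forms conditions for most b (for a general majorant) -/

/-- Module NgA (QL/Aw/NwA.lean with a general majorant). Uses: Cng, Box. -/
def NgAStmt : Prop :=
  ∀ (k J : ℕ) (θ : ℝ) (X T M : ℕ) [NeZero M] (ν : ℕ → (Fin T → ZMod M) → ℝ), 2 * 2 ^ k ≤ J → M.Prime →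
    k.factorial < M → MeanG J θ X M T ν → ∀ A : Finset (Fin k → Bool),
    eb X (fun b => (av (fun z : (Fin T → ZMod M) × (Fin k × Bool → Xb T M 2) =>
      ∏ ω ∈ A, ν b (z.1 + k.factorial • ∑ a, ((z.2 (a, ω a) : Xb T M 2) : Fin T → ZMod M))) -
        1) ^ 2) ≤ θ

/-- Module NgB (QL/Aw/NwB.lean with a general majorant). Uses: Cwg, Box. -/
def NgBStmt : Prop :=
  ∀ (k K J m : ℕ) (θ : ℝ) (X T M h : ℕ) [NeZero M] (ν : ℕ → (Fin T → ZMod M) → ℝ), 2 ≤ k → 1 ≤ K →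
    2 * (k * 2 ^ k) ≤ J → M.Prime → k.factorial < M → 2 ≤ h → h ≤ M → MeanG J θ X M T ν →
    ∀ S : Finset (Fin k × (Fin k → Bool)), (∀ p ∈ S, p.2 p.1 = false) →
    eb X (fun b => av (fun e : Fin T → ZMod M => (av (fun x : Fin k × Bool → Fin K → Xb T M h =>
      ∏ p ∈ S, ν b (e + frw m p.1 (pk p.2 x))) - 1) ^ 2)) ≤ θ

/-- Module NgC (QL/Aw/NwC.lean with a general majorant). Uses: nothing. -/
def NgCStmt : Prop :=
  ∀ (J : ℕ) (θ : ℝ) (X T M : ℕ) [NeZero M] (ν : ℕ → (Fin T → ZMod M) → ℝ), 2 ≤ J → 2 ≤ M → 1 ≤ X →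
    θ ≤ 1 / 6 → MeanG J θ X M T ν →
    eb X (fun b => (av (fun x : Fin T → ZMod M => ν b x)) ^ 2) ≤ 2

open Classical in
/-- Module Gdg (QL/Aw/Gdb.lean with a general majorant). Uses: NgA, NgB, GP.Asm.SelStmt. -/
def GdgStmt : Prop :=
  ∀ (k n0 J : ℕ) (θ η : ℝ) (X T M h : ℕ) [NeZero M] (ν : ℕ → (Fin T → ZMod M) → ℝ), 2 ≤ k →
    2 * (k * 2 ^ k) ≤ J → M.Prime → k.factorial < M → 2 ≤ h → h ≤ M → 1 ≤ X → 0 < η → 0 ≤ θ →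
    MeanG J θ X M T ν →
    (((Icc 1 X).filter (fun b => ¬ (NLF k k.factorial η (Xb T M 2) (ν b) ∧
      WLF k n0 η (Xb T M h) (ν b)))).card : ℝ) ≤
      (2 ^ (2 ^ k) + n0 * 2 ^ (k * 2 ^ k)) * (θ / η ^ 2) * X

/-! ### The majorant -/

/-- Module MjK (compare QL/Aw/MjV.lean). Uses: nothing. Proof. nuV ≥ 0 because log (X^κ) ≥ 0 (X ≥ 1). If fK ≠ 0, then every
n = V b (g m(x)) + 1, g ∈ 𝒢, is X^κ1-rough: a divisor d > 1 of n has a prime factor p (Nat.minFac) with X^κ ≤ X^κ1 < p ≤ d,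
so only the divisor 1 of n is ≤ R = X^κ (R ≥ 1), Lam 2 R n = 1, nuV = (φ(V)/V) log R (3/4), and the product of the card 𝒢
values is the value of fK. The value: 0 ≤ φ(V)/V ≤ 1, log R = κ log X ≤ log X, 3/4 ≤ 1. -/
def MjKStmt : Prop :=
  ∀ (𝒢 : Finset ℕ) (V : ℕ) (κ κ1 : ℝ) (J : Finset ℕ) (T M : ℕ) (q : Fin T → ℕ) (K' X b : ℕ) (x : Fin T → ZMod M),
    1 ≤ V → 0 < κ → κ < 1 → κ ≤ κ1 → 1 ≤ X → (∀ j, (q j).Prime) →
    0 ≤ fK 𝒢 V κ κ1 J q K' X b x ∧ fK 𝒢 V κ κ1 J q K' X b x ≤ nuK 𝒢 V κ q X b x ∧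
      fK 𝒢 V κ κ1 J q K' X b x ≤ (Real.log X) ^ 𝒢.card

end Pool.Agent.Lib.MP_9f2731_nt.CG.Tw
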