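import Pool.Agent.Lib.MP_9f2731_nt.CG.Tw.Spec

/-!
MP_9f2731_nt, THEOREM CG, chapter Tw, second part (architect helper78): RelWStmt → MtStmt → BvqStmt → GridXStmt → CgrStmt →
Cg2Stmt, with the two sets of multipliers 𝒢 ⊆ ℋ of CG/Defs.lean (idea: helper59): m + 1 primes among the multipliers in 𝒢
(K = card 𝒢 depends only on m), rough values for all multipliers in ℋ. The modules of Tw/Spec.lean (InK, SgK, GnK, MsK, MjK,
GrK, NgA, NgB, NgC, Gdg) are used as they are, FOR THE LARGER SET ℋ (their 𝒢 is ℋ here). Rules as in Tw/Spec.lean; first line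
of the modules: `import Pool.Agent.Lib.MP_9f2731_nt.CG.Tw.SpecX`. The files ScK, DnK, BsK, FiK, Ft2 in Tw are older versions of
ScX, DnX, BsX, FiX, Ft3 (they do not compile any more): copy and adapt them.
-/

namespace Pool.Agent.Lib.MP_9f2731_nt.CG.Tw

open Finset
open Pool.Agent.Lib.MP_9f2731_nt.GP
open Pool.Agent.Lib.MP_9f2731_nt.GP.Rel
open Pool.Agent.Lib.MP_9f2731_nt.GP.Asm (eb)
open Pool.Agent.Lib.MP_9f2731_nt.QL
open Pool.Agent.Lib.MP_9f2731_nt.QL.Aw (mltv Xb SclV MlVStmt PrcStmt GroStmt BoxStmt ShVStmt CwgStmt CngStmt DgvStmt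
  PtVStmt)

/-- all numbers `V b g s + 1`, g ∈ ℋ, are y-rough and at least m + 1 of those with g ∈ 𝒢 are prime -/
def GdX (𝒢 ℋ : Finset ℕ) (m : ℕ) (y : ℝ) (V s b : ℕ) : Prop :=
  (∀ g ∈ ℋ, Rgh y (V * b * (g * s) + 1)) ∧ m + 1 ≤ (𝒢.filter (fun g => (V * b * (g * s) + 1).Prime)).card

open Classical in
/-- the inner statement of MtStmt -/
def MtAt (m : ℕ) (𝒢 ℋ : Finset ℕ) (κ c : ℝ) (w1 : ℕ) (X0 : ℝ) : Prop :=
  ∀ X V p0 s : ℕ, X0 ≤ X → p0.Prime → w1 < p0 → ¬ p0 ∣ V → 1 ≤ V →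
    (∀ p : ℕ, p.Prime → (p : ℝ) ≤ (Real.log (Real.log X)) ^ 4 → p ≠ p0 → p ∣ V) → SmV V s →
    Real.log V + Real.log s ≤ (Real.log (Real.log X)) ^ 6 →
    (∀ g ∈ 𝒢, BvOK X p0 (V * (g * s))) →
    c * (((V : ℝ) / V.totient) / Real.log X) ^ ℋ.card * X ≤
      (((Icc 1 X).filter (fun b => GdX 𝒢 ℋ m ((X : ℝ) ^ κ) V s b)).card : ℝ)

open Classical in
/-- Module ScX (existence of the scale data; older version: Tw/ScK.lean; compare QL/Aw/Sce.lean). Uses: BvqStmt, Prc, MlV,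
Gro. Proof. X large. ε1 and p0 (for w1) from BvqStmt. T, w as in SclV, M by Bertrand (Nat.exists_prime_lt_and_le_two_mul for
2 E T^2 ≥ 1), V as in SclV. The number of primes ≤ w which are > B and different from p0 is ≥ sqrt w - B - 1 ≥ T (Prc; w ≥
L^5/2, T ≤ A L + 1), so there is an injective q : Fin T → those primes. SclK holds. For x let s = mltv q x: SmV V s (MlV, q
j ∣ V by Gro), p0 does not divide V (a product of primes different from p0), all primes p ≤ L^4 different from p0 divide V (p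
≤ w, Gro; L ≥ 1), log V + log s ≤ log V + T M log w ≤ L^6 (MlV, Gro). For g ∈ 𝒢 and Q = V (g s): p0 does not divide Q (p0 >
w1 ≥ B ≥ g ≥ 1), log Q ≤ log B + log V + T M log w ≤ log B + L^6 ≤ (log X)^ε1 (X large), so BvOK X p0 Q. Now MtAt. -/
def ScXStmt : Prop :=
  ∀ (m B W0 : ℕ) (𝒢 ℋ : Finset ℕ) (κ1 c1 X1 : ℝ), 𝒢 ⊆ ℋ → (∀ g ∈ ℋ, 1 ≤ g ∧ g ≤ B) →
    MtAt m 𝒢 ℋ κ1 c1 W0 X1 →
    ∀ A E w1 : ℕ, 1 ≤ A → 1 ≤ E → B ≤ w1 → W0 ≤ w1 → ∃ X0 : ℝ, ∀ X : ℕ, X0 ≤ X →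
    ∃ (T M w p0 V : ℕ) (q : Fin T → ℕ), SclK B A E w1 X T M w p0 V q ∧ ∀ x : Fin T → ZMod M,
      c1 * (((V : ℝ) / V.totient) / Real.log X) ^ ℋ.card * X ≤
        (((Icc 1 X).filter (fun b => GdX 𝒢 ℋ m ((X : ℝ) ^ κ1) V (mltv q x) b)).card : ℝ)

open Classical in
/-- Module DnX (density and choice of J; older version: Tw/DnK.lean; compare QL/Aw/DnV.lean). Uses: Gro. Proof. K = card ℋ, δ'
= c1 (3κ/4)^K/(4 2^(card 𝒢)). v0 = (φ(V)/V) κ log X (3/4). Let x have (x j).val + E T < M for all j. For every b with GdX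
there is J ⊆ {g ∈ 𝒢 : V b g m(x) + 1 prime} of cardinality m + 1 (Finset.exists_subset_card_eq), J ∈ powersetCard (m+1) 𝒢,
and fK J b x = v0^K for it. So ∑_J eb (fun b => fK J b x) ≥ v0^K c1 (V/φ(V))^K/(log X)^K = c1 (3κ/4)^K (X > 1, φ(V) > 0). The
proportion of these x in G is ((M - E T)/M)^T ≥ 1 - T E T/M ≥ 1/2 (see DnV.lean). So ∑_J eb av fK ≥ c1 (3κ/4)^K/2 > 0, the
number of sets J is ≤ 2^(card 𝒢), so some J has eb av fK ≥ 2 δ'. -/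
def DnXStmt : Prop :=
  ∀ (m : ℕ) (𝒢 ℋ : Finset ℕ) (κ κ1 c1 : ℝ), 0 < κ → 0 < κ1 → 0 < c1 → ∃ δ' : ℝ, 0 < δ' ∧
    ∀ A E w1 : ℕ, 1 ≤ A → 1 ≤ E → ∃ X0 : ℝ, ∀ X : ℕ,
    X0 ≤ X → ∀ (T M w p0 V : ℕ) [NeZero M] (q : Fin T → ℕ), SclV A E w1 X T M w p0 V q →
    (∀ x : Fin T → ZMod M, c1 * (((V : ℝ) / V.totient) / Real.log X) ^ ℋ.card * X ≤
      (((Icc 1 X).filter (fun b => GdX 𝒢 ℋ m ((X : ℝ) ^ κ1) V (mltv q x) b)).card : ℝ)) →
    ∃ J : Finset ℕ, J ⊆ 𝒢 ∧ J.card = m + 1 ∧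
      2 * δ' ≤ eb X (fun b => av (fun x : Fin T → ZMod M => fK ℋ V κ κ1 J q (E * T) X b x))

open Classical in
/-- Result of the transference: J may depend on k and X. -/
def GridXStmt : Prop :=
  ∀ m : ℕ, ∃ K : ℕ, ∀ 𝒢 ℋ : Finset ℕ, 𝒢.card = K → 𝒢 ⊆ ℋ → (∀ g ∈ ℋ, 1 ≤ g) → ∃ κ : ℝ, 0 < κ ∧
    ∀ k : ℕ, 3 ≤ k → ∃ c X0 : ℝ, 0 < c ∧ ∀ X : ℕ, X0 ≤ X → ∃ J : Finset ℕ, J ⊆ 𝒢 ∧ J.card = m + 1 ∧
      c * X ≤ (((Icc 1 X).filter (fun b => ∃ s r : ℕ, 1 ≤ s ∧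
        Real.log s ≤ (Real.log (Real.log X)) ^ 6 / 2 ∧ 2 ≤ r ∧
        Real.log r ≤ (Real.log (Real.log X)) ^ 3 / 8 ∧ Grd J ℋ ((X : ℝ) ^ κ) k r (b * s))).card : ℝ)

/-- Module BsX (main step; older version: Tw/BsK.lean; compare QL/Aw/Bsv.lean). Uses: RelWStmt, MtStmt, MsK, Gro, GrK, MlV,
Box, ShV, NgC, Gdg, GP.Asm.SelStmt, ScX, DnX, MjK, Dgv, PtV. Proof. m; K from MtStmt; 𝒢 ⊆ ℋ with card 𝒢 = K; B = 1 + the
maximum of ℋ (ℋ.sup id); (κ1, c1, W0, X1) from MtStmt, i.e. MtAt m 𝒢 ℋ κ1 c1 W0 X1. κ := κ1 in GridXStmt. Given k ≥ 3. J0 =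
2 (k 2^k); (κ, A0) from MsK for (J0, B, ℋ, κ1); δ' from DnX for (m, 𝒢, ℋ, κ, κ1, c1); (c, η, θr, n0) from RelW for (k, δ');
B' = ⌈k!/θr⌉₊ + 2, E = k (n0+1) B'; A = max A0 (2 (k card ℋ + 1)) + 1; nS = 2^(2^k) + n0 2^(k 2^k); θ = min (1/6) (η^2
δ'^2/(4 nS)); w1 = the maximum of B, W0 and the w1 from MsK for θ. X large; data from ScX for (A, E, w1); M prime gives
NeZero M. h = B' T, K' = E T = k (n0+1) h (Gro: T ≥ K0 := k! + 2): h ≥ 2, h ≤ K' ≤ E T^2 < M, k! < T ≤ M. MeanG by MsK (w2 =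
w1) for ν = nuK ℋ. DnX: J ⊆ 𝒢, card J = m + 1, 2 δ' ≤ eb (av fK). Sel, first part (F = av fK, V = av nuK by MjK, NgC): at
least (δ'^2/2) X of the b have av fK ≥ δ'. Gdg: at most nS θ X/η^2 ≤ (δ'^2/4) X of the b violate NLF or WLF. So at least
(δ'^2/4) X of the b are good. For a good b: RelW for G = Fin T → ZMod M, X = Xb T M h, Y = Xb T M 2 (nonempty by Box), Shf by
ShV (T k! ≤ θr B' T), ν = nuK, f = fK (MjK): m' < n0 with c ≤ av_e av_x ∏ f. Dgv with F = (log X)^(card ℋ): F^k/h^T ≤ (log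
X)^(k card ℋ) (1/2)^T ≤ c/2 < c (Gro with B = k card ℋ, η = c/2; Real.rpow_natCast). So e, x with d(x) ≠ 0, fK ≠ 0 at all e +
frw m' j x: the coordinates satisfy val + K' < M, for every g ∈ J the number V b (g m) + 1 is prime, and for every g ∈ ℋ it is
X^κ1-rough. PtV: j0, r; s = V mltv q (e + frw m' j0 x) ≥ 1; log s ≤ log V + T M log w ≤ L^6/2 (MlV, GrK), r ≥ 2, log r ≤ T K'
log w = E T^2 log w ≤ L^3/8 (GrK), and g r^i (b s) + 1 = V b (g mltv q (e + frw m' j x)) + 1 for the j of PtV. -/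
def BsXStmt : Prop := GridXStmt

/-! ### The final statements -/

/-- the numbers `g r^i n + 1`, i < k, g ∈ J, are prime -/
def PrG (J : Finset ℕ) (k r n : ℕ) : Prop := ∀ i : ℕ, i < k → ∀ g ∈ J, (g * r ^ i * n + 1).Prime

/-- all numbers `g r^i n + 1`, 1 ≤ g ≤ L, i < k, have at most C prime factors -/
def Apx (L C k r n : ℕ) : Prop :=
  ∀ i : ℕ, i < k → ∀ g : ℕ, 1 ≤ g → g ≤ L → (g * r ^ i * n + 1).primeFactorsList.length ≤ C

/-- THEOREM CG. Every set 𝒢 of at least K(m) multipliers: (1) for all large X a positive proportion of the b ≤ X, J depends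
on X; (2), (3) one fixed set J of m + 1 multipliers for all L and k. C depends on L, not on k. -/
def CgrStmt : Prop :=
  ∀ m : ℕ, ∃ K : ℕ, ∀ 𝒢 : Finset ℕ, K ≤ 𝒢.card → (∀ g ∈ 𝒢, 1 ≤ g) →
    (∀ L : ℕ, ∃ C : ℕ, ∀ k : ℕ, ∃ c X0 : ℝ, 0 < c ∧ ∀ X : ℕ, X0 ≤ X → ∃ J : Finset ℕ, J ⊆ 𝒢 ∧ J.card = m + 1 ∧
      c * X ≤ (({b : ℕ | 1 ≤ b ∧ b ≤ X ∧ ∃ s r : ℕ, 1 ≤ s ∧ 2 ≤ r ∧
        (s : ℝ) ≤ Real.exp ((Real.log (Real.log X)) ^ 6) ∧
        (r : ℝ) ≤ Real.exp ((Real.log (Real.log X)) ^ 3) ∧ PrG J k r (b * s) ∧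
          Apx L C k r (b * s)}.ncard : ℕ) : ℝ)) ∧
    ∃ J : Finset ℕ, J ⊆ 𝒢 ∧ J.card = m + 1 ∧ ∀ L : ℕ, ∃ C : ℕ, ∀ k : ℕ,
      (∃ c : ℝ, 0 < c ∧ ∀ X1 : ℕ, ∃ X : ℕ, X1 ≤ X ∧
        c * X ≤ (({b : ℕ | 1 ≤ b ∧ b ≤ X ∧ ∃ s r : ℕ, 1 ≤ s ∧ 2 ≤ r ∧
          (s : ℝ) ≤ Real.exp ((Real.log (Real.log X)) ^ 6) ∧
          (r : ℝ) ≤ Real.exp ((Real.log (Real.log X)) ^ 3) ∧ PrG J k r (b * s) ∧
            Apx L C k r (b * s)}.ncard : ℕ) : ℝ)) ∧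
      ∀ N : ℕ, ∃ n r : ℕ, N ≤ n ∧ 2 ≤ r ∧ (r : ℝ) ≤ Real.exp ((Real.log (Real.log n)) ^ 3) ∧ PrG J k r n ∧
        Apx L C k r n

/-- the special case of the powers of 2, in terms of primes: every term `p_i = r^i (p-1) + 1` of the chain with ratio r
starts a sequence with ratio exactly 2 of length L, all of whose terms have at most C prime factors, and the terms number
j 0 = 0, j 1, .., j m are primes. -/
def Cg2Stmt : Prop :=
  ∀ m : ℕ, ∃ j : Fin (m + 1) → ℕ, StrictMono j ∧ j 0 = 0 ∧ ∀ L : ℕ, ∃ C : ℕ, ∀ k N : ℕ,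
    ∃ p r : ℕ, N ≤ p ∧ p.Prime ∧ 2 ≤ r ∧ (r : ℝ) ≤ Real.exp ((Real.log (Real.log p)) ^ 3) ∧
      (∀ i : ℕ, i < k → ∀ l : Fin (m + 1), (2 ^ j l * r ^ i * (p - 1) + 1).Prime) ∧
      ∀ i : ℕ, i < k → ∀ h : ℕ, h < L → (2 ^ h * r ^ i * (p - 1) + 1).primeFactorsList.length ≤ C

/-- Module Ps1 (pigeonhole). Uses: nothing. Proof. By contradiction twice: for given L some J ∈ 𝒥 satisfies Q L k J for
arbitrarily large k (otherwise every J ∈ 𝒥 has a bound, take k = the maximum of 3 and the bounds), monotonicity is not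
needed; choose J_L. If no J ∈ 𝒥 is J_L for arbitrarily large L, take L larger than all the bounds. -/
def Ps1Stmt : Prop :=
  ∀ (𝒥 : Finset (Finset ℕ)) (Q : ℕ → ℕ → Finset ℕ → Prop), (∀ L k : ℕ, 3 ≤ k → ∃ J ∈ 𝒥, Q L k J) →
    ∃ J ∈ 𝒥, ∀ L0 : ℕ, ∃ L : ℕ, L0 ≤ L ∧ ∀ k0 : ℕ, ∃ k : ℕ, k0 ≤ k ∧ Q L k J

/-- Module Rgp (rough numbers have few prime factors). Uses: nothing. Proof. n is the product of the list primeFactorsList n
(n ≠ 0), all its elements p satisfy X^κ < p, so (X^κ)^length ≤ n ≤ X^2 (List.prod: induction on the list), so κ length ≤ 2 (X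
> 1, take logarithms). -/
def RgpStmt : Prop :=
  ∀ (κ : ℝ) (X n : ℕ), 0 < κ → 2 ≤ X → 1 ≤ n → n ≤ X ^ 2 → Rgh ((X : ℝ) ^ κ) n →
    n.primeFactorsList.length ≤ ⌈2 / κ⌉₊

/-- Module FiX (older version: Tw/FiK.lean). Uses: GridXStmt, Ps1, Rgp. Proof. L2 = log log X. K of GridXStmt; 𝒢1 ⊆ 𝒢 a
subset of cardinality K (Finset.exists_subset_card_eq). For L put ℋ(L) = 𝒢1 ∪ Icc 1 L, κ(L) from GridXStmt, C(L) =
⌈2/κ(L)⌉₊. For k put k0 = max k 3 (the conditions for k0 imply those for k). (P) For L, k and X large: every n = g r^i (b s) +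
1 with 1 ≤ g ≤ L, i < k0, log s ≤ L2^6/2, log r ≤ L2^3/8, b ≤ X, is ≤ L exp(k0 L2^3/8 + L2^6/2) X + 1 ≤ X^2, so by Rgp n has
at most C(L) prime factors if it is X^κ(L)-rough: Grd J ℋ(L) (X^κ) k0 r (b s) implies PrG J k r (b s) and Apx L C(L) k r (b
s). (1): J(L,k0,X) from GridXStmt; log s ≤ L2^6/2 ≤ L2^6 and log r ≤ L2^3/8 ≤ L2^3 for X large; the set contains the Finset of
GridXStmt and is finite (subset of Icc 1 X): Set.ncard_le_ncard, Set.ncard_coe_finset; J ⊆ 𝒢1 ⊆ 𝒢. Choice of J: 𝒥 =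
powersetCard (m+1) 𝒢1, Q L k J = (the inequality of GridXStmt for ℋ(L), k, with its c(L,k), holds for J and arbitrarily
large X): for k ≥ 3 some J ∈ 𝒥 has Q L k J (pigeonhole over X, finite set 𝒥). Ps1 gives J. (2): given L take L' ≥ L from
Ps1, C = C(L'). Given k take k' ≥ max k 3 with Q L' k' J: use (P) for (L', k') (Apx L' C k' implies Apx L C k). (3): given k,
N take k' as before, X large with c X ≥ N: the set of the b (a subset of [1, X] with at least c X elements) has an element b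
≥ c X (otherwise it would be contained in Icc 1 (⌈c X⌉ - 1)). n = b s ≥ b ≥ N, log n ≥ log X + log c ≥ (log X)/2, log log n
≥ L2 - log 2 ≥ L2/2 ≥ 0 for X large, so log r ≤ L2^3/8 ≤ (log log n)^3. -/
def FiXStmt : Prop := CgrStmt

/-- Module Ft3 (older version: Tw/Ft2.lean). Uses: CgrStmt. Proof. K from CgrStmt, 𝒢 = the image of range K under l ↦ 2^l
(card K, injective); J; ℰ = the set of the l < K with 2^l ∈ J, card ℰ = m + 1 (J is the image of ℰ). j l =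
(ℰ.orderEmbOfFin _ l) - l0, l0 = ℰ.orderEmbOfFin _ 0 (the minimum): StrictMono, j 0 = 0. Given L: C from CgrStmt for 2^(l0 +
L). Given k, N: part (3) for max k 1 and max N 3: n, r. p = 2^l0 n + 1 = 2^l0 r^0 n + 1 is prime (i = 0), p ≥ n ≥ N, log log p
≥ log log n (n ≥ 3), and x ↦ x^3 is increasing. p - 1 = 2^l0 n, 2^(j l) r^i (2^l0 n) + 1 = 2^(l0 + j l) r^i n + 1 is prime;
2^h r^i (2^l0 n) + 1 = 2^(l0 + h) r^i n + 1 with 2^(l0 + h) ≤ 2^(l0 + L) has at most C prime factors. -/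
def Ft3Stmt : Prop := Cg2Stmt

end Pool.Agent.Lib.MP_9f2731_nt.CG.Tw
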